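import Mathlib

set_option autoImplicit false

/-! # Matchings of the colour changes on a ring

`col : ℤ → Bool` : colours of the positions of a ring (period `n`). `St col p` : a wired arc starts at `p`,
`Ed col q` : a wired arc ends at `q`. `Sig n col σ` : `σ` is a noncrossing bijection from the starts to the
ends, `p ≤ σ p < p + n` (lifts to `ℤ`). `Rel.exists_sig` : such a `σ` from a relation between the sides of
a finer ring. `Sig.pull` : refinement of the ring. -/

namespace Pool.Agent.H40.W.R3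

/-- a wired arc starts -/
def St (col : ℤ → Bool) (p : ℤ) : Prop := col (p - 1) = false ∧ col p = true

/-- a wired arc ends -/
def Ed (col : ℤ → Bool) (p : ℤ) : Prop := col p = true ∧ col (p + 1) = false

/-- **noncrossing matching of the starts and the ends** -/
structure Sig (n : ℤ) (col : ℤ → Bool) (σ : ℤ → ℤ) : Prop where
  ed : ∀ p, St col p → Ed col (σ p)
  ge : ∀ p, St col p → p ≤ σ p
  lt : ∀ p, St col p → σ p < p + n
  per : ∀ p, σ (p + n) = σ p + n
  inj : ∀ p p', St col p → St col p' → σ p = σ p' → p = p'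
  surj : ∀ q, Ed col q → ∃ p, St col p ∧ σ p = q
  nc : ∀ p1 p2, St col p1 → St col p2 → p1 < p2 → p2 ≤ σ p1 → σ p1 < σ p2 → σ p2 < p1 + n → False

/-- a relation between the sides of a finer ring: `J p` : first side of the position `p`, the exit of the start
`p` is the side `J p - 1`, the entrance of the end `q` is the side `J (q + 1)` -/
structure Rel (n : ℤ) (col : ℤ → Bool) (J : ℤ → ℤ) (m : ℤ) (R : ℤ → ℤ → Prop) : Prop where
  hn : 0 < n
  per : ∀ p, col (p + n) = col p
  mono : ∀ p, J p < J (p + 1)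
  Jper : ∀ p, J (p + n) = J p + m
  ev : ∀ p, col (p - 1) ≠ col p → J p % 2 = 0
  st : ∀ p, St col p → ∃ q, Ed col q ∧ R (J p - 1) (J (q + 1))
  en : ∀ q, Ed col q → ∃ p, St col p ∧ R (J p - 1) (J (q + 1))
  left : ∀ i j, R i j → R (i + m) j
  left' : ∀ i j, R (i + m) j → R i j
  right : ∀ i j, R i j → R i (j + m)
  right' : ∀ i j, R i (j + m) → R i j
  uniq : ∀ i j j', R i j → R i j' → j % m = j' % m
  inj : ∀ i i' j, St col i → St col i' → R (J i - 1) j → R (J i' - 1) j → (J i - 1) % m = (J i' - 1) % m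
  nc : ∀ j1 j2 j3 j4, j1 < j2 → j2 < j3 → j3 < j4 → j4 < j1 + m → (R j1 j3 ∨ R j3 j1) →
    (R j2 j4 ∨ R j4 j2) → False

section lift

variable {n : ℤ} {col : ℤ → Bool}

/-- periodic functions -/
lemma per_mul {f : ℤ → ℤ} {m : ℤ} (h : ∀ p, f (p + n) = f p + m) (p k : ℤ) :
    f (p + k * n) = f p + k * m := by
  induction k using Int.induction_on with
  | zero => simp
  | succ i ih =>
    rw [show p + ((i : ℤ) + 1) * n = p + i * n + n by ring, h, ih]
    ring
  | pred i ih =>
    have h1 := h (p + (-(i : ℤ) - 1) * n)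
    rw [show p + (-(i : ℤ) - 1) * n + n = p + -(i : ℤ) * n by ring, ih] at h1
    linear_combination -h1

lemma col_mul (h : ∀ p, col (p + n) = col p) (p k : ℤ) : col (p + k * n) = col p := by
  induction k using Int.induction_on with
  | zero => simp
  | succ i ih =>
    rw [show p + ((i : ℤ) + 1) * n = p + i * n + n by ring, h, ih]
  | pred i ih =>
    have h1 := h (p + (-(i : ℤ) - 1) * n)
    rw [show p + (-(i : ℤ) - 1) * n + n = p + -(i : ℤ) * n by ring, ih] at h1
    exact h1.symm

lemma st_mul (h : ∀ p, col (p + n) = col p) {p : ℤ} (k : ℤ) (hp : St col p) : St col (p + k * n) := by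
  refine ⟨?_, ?_⟩
  · rw [show p + k * n - 1 = p - 1 + k * n by ring, col_mul h]
    exact hp.1
  · rw [col_mul h]
    exact hp.2

lemma ed_mul (h : ∀ p, col (p + n) = col p) {p : ℤ} (k : ℤ) (hp : Ed col p) : Ed col (p + k * n) := by
  refine ⟨?_, ?_⟩
  · rw [col_mul h]
    exact hp.1
  · rw [show p + k * n + 1 = p + 1 + k * n by ring, col_mul h]
    exact hp.2

/-- a strictly increasing function -/
lemma mono_le {J : ℤ → ℤ} (h : ∀ p, J p < J (p + 1)) {p q : ℤ} (hpq : p < q) : J p < J q :=
  strictMono_int_of_lt_succ h hpq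

end lift

namespace Rel

variable {n : ℤ} {col : ℤ → Bool} {J : ℤ → ℤ} {m : ℤ} {R : ℤ → ℤ → Prop} (h : Rel n col J m R)

include h

lemma mpos : 0 < m := by
  have h1 := mono_le h.mono (show (0 : ℤ) < 0 + n by have := h.hn; omega)
  rw [h.Jper] at h1
  omega

lemma left_mul (k : ℤ) {i j : ℤ} (hr : R i j) : R (i + k * m) j := by
  induction k using Int.induction_on with
  | zero => simpa using hr
  | succ a ih =>
    rw [show i + ((a : ℤ) + 1) * m = i + a * m + m by ring]
    exact h.left _ _ ih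
  | pred a ih =>
    refine h.left' _ _ ?_
    rw [show i + (-(a : ℤ) - 1) * m + m = i + -(a : ℤ) * m by ring]
    exact ih

lemma right_mul (k : ℤ) {i j : ℤ} (hr : R i j) : R i (j + k * m) := by
  induction k using Int.induction_on with
  | zero => simpa using hr
  | succ a ih =>
    rw [show j + ((a : ℤ) + 1) * m = j + a * m + m by ring]
    exact h.right _ _ ih
  | pred a ih =>
    refine h.right' _ _ ?_
    rw [show j + (-(a : ℤ) - 1) * m + m = j + -(a : ℤ) * m by ring]
    exact ih

lemma both (k : ℤ) {p q : ℤ} (hr : R (J p - 1) (J (q + 1))) :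
    R (J (p + k * n) - 1) (J (q + k * n + 1)) := by
  rw [show q + k * n + 1 = q + 1 + k * n by ring, per_mul h.Jper, per_mul h.Jper,
    show J p + k * m - 1 = J p - 1 + k * m by ring]
  exact h.left_mul k (h.right_mul k hr)

/-- positions with the same sides mod `m` -/
lemma J_mod {p q : ℤ} (hj : J p % m = J q % m) : ∃ k, q = p + k * n := by
  obtain ⟨k, hk⟩ : m ∣ J q - J p :=
    Int.dvd_of_emod_eq_zero (Int.emod_eq_emod_iff_emod_sub_eq_zero.1 hj.symm)
  refine ⟨k, ?_⟩
  have h1 : J q = J (p + k * n) := by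
    rw [per_mul h.Jper]
    linear_combination hk
  exact (strictMono_int_of_lt_succ h.mono).injective h1

/-- sides of a start and of an end -/
lemma lt_of_le {p q : ℤ} (hpq : p ≤ q) : J p - 1 < J (q + 1) := by
  have := mono_le h.mono (show p < q + 1 by omega)
  omega

lemma lt_of_lt {p q : ℤ} (hp : St col p) (hq : Ed col q) (hpq : q < p) : J (q + 1) < J p - 1 := by
  have h1 : q + 1 ≠ p := by
    intro e
    have := hq.2
    rw [e, hp.2] at this
    exact absurd this (by simp)
  have h2 := mono_le h.mono (show q + 1 < p by omega)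
  have h3 : J p % 2 = 0 := h.ev p (by rw [hp.1, hp.2]; simp)
  have h4 : J (q + 1) % 2 = 0 := h.ev (q + 1) (by rw [add_sub_cancel_right, hq.1, hq.2]; simp)
  omega

/-- the partner with its lift -/
lemma exists_lift {p : ℤ} (hp : St col p) :
    ∃ q, Ed col q ∧ p ≤ q ∧ q < p + n ∧ R (J p - 1) (J (q + 1)) := by
  obtain ⟨q, hq, hr⟩ := h.st p hp
  have hn := h.hn
  have h1 : 0 ≤ (q - p) % n := Int.emod_nonneg _ (by omega)
  have h2 : (q - p) % n < n := Int.emod_lt_of_pos _ hn
  have h3 : p + (q - p) % n = q + -((q - p) / n) * n := by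
    have := Int.emod_add_mul_ediv (q - p) n
    linear_combination this
  refine ⟨p + (q - p) % n, ?_, by omega, by omega, ?_⟩
  · rw [h3]; exact ed_mul h.per _ hq
  · rw [h3, show q + -((q - p) / n) * n + 1 = q + 1 + -((q - p) / n) * n by ring, per_mul h.Jper]
    exact h.right_mul _ hr

lemma lift_unique {p q q' : ℤ} (h1 : p ≤ q) (h2 : q < p + n) (h3 : p ≤ q') (h4 : q' < p + n)
    (hr : R (J p - 1) (J (q + 1))) (hr' : R (J p - 1) (J (q' + 1))) : q = q' := by
  obtain ⟨k, hk⟩ := h.J_mod (h.uniq _ _ _ hr hr')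
  have hn := h.hn
  have h5 : -n < k * n := by omega
  have h6 : k * n < n := by omega
  have h7 : -1 < k := by nlinarith
  have h8 : k < 1 := by nlinarith
  have h9 : k = 0 := by omega
  subst h9
  omega

/-- **the noncrossing matching of a ring** -/
theorem exists_sig : ∃ σ : ℤ → ℤ, Sig n col σ ∧ ∀ p, St col p → R (J p - 1) (J (σ p + 1)) := by
  classical
  have hn := h.hn
  choose f hf using fun (p : ℤ) (hp : St col p) => h.exists_lift hp
  set σ : ℤ → ℤ := fun p => if hp : St col p then f p hp else p with hσ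
  have e1 : ∀ p (hp : St col p), σ p = f p hp := fun p hp => by
    simp only [hσ]
    rw [dif_pos hp]
  have k1 : ∀ p, St col p → Ed col (σ p) ∧ p ≤ σ p ∧ σ p < p + n ∧ R (J p - 1) (J (σ p + 1)) := by
    intro p hp
    rw [e1 p hp]
    exact hf p hp
  have k2 : ∀ p, σ (p + n) = σ p + n := by
    intro p
    by_cases hp : St col p
    · have hp' : St col (p + n) := by simpa using st_mul h.per 1 hp
      obtain ⟨-, a1, a2, a3⟩ := k1 p hp
      obtain ⟨-, b1, b2, b3⟩ := k1 _ hp'
      refine h.lift_unique (p := p + n) b1 b2 (by omega) (by omega) b3 ?_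
      simpa using h.both 1 a3
    · have hp' : ¬ St col (p + n) := fun h1 => hp (by simpa using st_mul h.per (-1) h1)
      simp only [hσ]
      rw [dif_neg hp, dif_neg hp']
  have kinj : ∀ p p', St col p → St col p' → σ p = σ p' → p = p' := by
    intro p p' hp hp' e
    obtain ⟨-, a1, a2, a3⟩ := k1 p hp
    obtain ⟨-, b1, b2, b3⟩ := k1 p' hp'
    rw [← e] at b3
    have h1 := h.inj _ _ _ hp hp' a3 b3
    have h2 : J p % m = J p' % m := by
      have h3 := Int.emod_eq_emod_iff_emod_sub_eq_zero.1 h1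
      refine Int.emod_eq_emod_iff_emod_sub_eq_zero.2 ?_
      rw [← h3]
      congr 1
      ring
    obtain ⟨k, hk⟩ := h.J_mod h2
    have h5 : -n < k * n := by omega
    have h6 : k * n < n := by omega
    have h7 : -1 < k := by nlinarith
    have h8 : k < 1 := by nlinarith
    have h9 : k = 0 := by omega
    subst h9
    omega
  refine ⟨σ, ⟨fun p hp => (k1 p hp).1, fun p hp => (k1 p hp).2.1, fun p hp => (k1 p hp).2.2.1, k2,
    kinj, ?_, ?_⟩, fun p hp => (k1 p hp).2.2.2⟩
  · intro q hq
    obtain ⟨p, hp, hr⟩ := h.en q hq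
    obtain ⟨-, a1, a2, a3⟩ := k1 p hp
    obtain ⟨k, hk⟩ := h.J_mod (h.uniq _ _ _ a3 hr)
    refine ⟨p + k * n, st_mul h.per k hp, ?_⟩
    rw [per_mul k2]
    omega
  · intro p1 p2 hp1 hp2 h12 h2 h3 h4
    obtain ⟨a0, a1, a2, a3⟩ := k1 p1 hp1
    obtain ⟨b0, b1, b2, b3⟩ := k1 p2 hp2
    have l1 : J p1 - 1 < J p2 - 1 := by have := mono_le h.mono h12; omega
    have l2 : J p2 - 1 < J (σ p1 + 1) := h.lt_of_le h2
    have l3 : J (σ p1 + 1) < J (σ p2 + 1) := mono_le h.mono (by omega)
    have l4 : J (σ p2 + 1) < J p1 - 1 + m := by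
      have := h.lt_of_lt (p := p1 + n) (by simpa using st_mul h.per 1 hp1) b0 h4
      rw [h.Jper] at this
      omega
    exact h.nc _ _ _ _ l1 l2 l3 l4 (Or.inl a3) (Or.inl b3)

end Rel

/-! ### Refinement of the ring -/

section pull

variable {n N : ℤ} {col : ℤ → Bool} {σ P : ℤ → ℤ}

/-- nondecreasing with steps `0`, `1` -/
lemma P_mono (hP : ∀ k, P k ≤ P (k + 1)) {k l : ℤ} (h : k ≤ l) : P k ≤ P l := by
  have : Monotone P := monotone_int_of_le_succ hP
  exact this h

/-- the first position of `p` -/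
lemma exists_first (hn : 0 < n) (hN : 0 < N) (hP : ∀ k, P k ≤ P (k + 1)) (hP' : ∀ k, P (k + 1) ≤ P k + 1)
    (per : ∀ k, P (k + N) = P k + n) (p : ℤ) : ∃ k, P k = p ∧ P (k - 1) = p - 1 := by
  classical
  -- a position below and one above
  obtain ⟨a, ha⟩ : ∃ a, P a < p := by
    refine ⟨0 + -(|P 0| + |p| + 1) * N, ?_⟩
    rw [per_mul per]
    have h1 := abs_nonneg (P 0)
    have h2 := abs_nonneg p
    have h3 := le_abs_self (P 0)
    have h4 := neg_abs_le p
    nlinarith
  obtain ⟨b, hb⟩ : ∃ b, p ≤ P b := by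
    refine ⟨0 + (|P 0| + |p| + 1) * N, ?_⟩
    rw [per_mul per]
    have h1 := abs_nonneg (P 0)
    have h2 := abs_nonneg p
    have h3 := neg_abs_le (P 0)
    have h4 := le_abs_self p
    nlinarith
  have hab : a < b := by
    by_contra h
    have := P_mono hP (show b ≤ a by omega)
    omega
  have hex : ∃ i : ℕ, p ≤ P (a + i) := ⟨(b - a).toNat, by
    rw [Int.toNat_of_nonneg (by omega), show a + (b - a) = b by ring]; exact hb⟩
  set i := Nat.find hex with hi
  have h1 : p ≤ P (a + i) := Nat.find_spec hex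
  have hi0 : 0 < i := by
    rcases Nat.eq_zero_or_pos i with h | h
    · rw [h] at h1
      simp at h1
      omega
    · exact h
  have h2 : P (a + i - 1) < p := by
    have := Nat.find_min hex (m := i - 1) (by omega)
    have e : (a : ℤ) + ((i - 1 : ℕ) : ℤ) = a + i - 1 := by omega
    rw [e] at this
    omega
  have h3 := hP' (a + i - 1)
  rw [sub_add_cancel] at h3
  exact ⟨a + i, by omega, by omega⟩

/-- the first position is unique -/
lemma first_unique (hP : ∀ k, P k ≤ P (k + 1)) {k l p : ℤ} (h1 : P k = p) (h2 : P (k - 1) = p - 1)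
    (h3 : P l = p) (h4 : P (l - 1) = p - 1) : k = l := by
  rcases lt_trichotomy k l with h | h | h
  · have := P_mono hP (show k ≤ l - 1 by omega)
    omega
  · exact h
  · have := P_mono hP (show l ≤ k - 1 by omega)
    omega

/-- a start of the refined ring is the first position of a start -/
lemma st_pull (hP : ∀ k, P k ≤ P (k + 1)) (hP' : ∀ k, P (k + 1) ≤ P k + 1) {k : ℤ} :
    St (fun k => col (P k)) k ↔ St col (P k) ∧ P (k - 1) = P k - 1 := by
  have h1 := hP (k - 1)
  have h2 := hP' (k - 1)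
  rw [sub_add_cancel] at h1 h2
  unfold St
  simp only
  constructor
  · rintro ⟨h3, h4⟩
    have h5 : P (k - 1) ≠ P k := by
      intro e
      rw [e, h4] at h3
      exact absurd h3 (by simp)
    have h6 : P (k - 1) = P k - 1 := by omega
    rw [← h6]
    exact ⟨⟨h3, h4⟩, rfl⟩
  · rintro ⟨⟨h3, h4⟩, h5⟩
    rw [h5]
    exact ⟨h3, h4⟩

/-- an end of the refined ring is the last position of an end -/
lemma ed_pull (hP : ∀ k, P k ≤ P (k + 1)) (hP' : ∀ k, P (k + 1) ≤ P k + 1) {k : ℤ} :
    Ed (fun k => col (P k)) k ↔ Ed col (P k) ∧ P (k + 1) = P k + 1 := by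
  have h1 := hP k
  have h2 := hP' k
  unfold Ed
  simp only
  constructor
  · rintro ⟨h3, h4⟩
    have h5 : P (k + 1) ≠ P k := by
      intro e
      rw [e, h3] at h4
      exact absurd h4 (by simp)
    have h6 : P (k + 1) = P k + 1 := by omega
    rw [← h6]
    exact ⟨⟨h3, h4⟩, rfl⟩
  · rintro ⟨⟨h3, h4⟩, h5⟩
    rw [h5]
    exact ⟨h3, h4⟩

/-- **Refinement of the ring.** -/
theorem Sig.pull (h : Sig n col σ) (hn : 0 < n) (hN : 0 < N) (hP : ∀ k, P k ≤ P (k + 1))
    (hP' : ∀ k, P (k + 1) ≤ P k + 1) (per : ∀ k, P (k + N) = P k + n) :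
    ∃ τ : ℤ → ℤ, Sig N (fun k => col (P k)) τ ∧ ∀ k, St (fun k => col (P k)) k → P (τ k) = σ (P k) := by
  classical
  choose F hF1 hF2 using fun p => exists_first hn hN hP hP' per p
  have hF : ∀ k p, P k = p → P (k - 1) = p - 1 → k = F p := fun k p h1 h2 =>
    first_unique hP h1 h2 (hF1 p) (hF2 p)
  have Fm : ∀ p, F p < F (p + 1) := by
    intro p
    by_contra hc
    have h1 := P_mono hP (show F (p + 1) ≤ F p by omega)
    rw [hF1, hF1] at h1
    omega
  have Fper : ∀ p, F (p + n) = F p + N := by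
    intro p
    refine (hF _ _ ?_ ?_).symm
    · rw [per, hF1]
    · rw [show F p + N - 1 = F p - 1 + N by ring, per, hF2]
      ring
  -- the last position of `q` is `F (q + 1) - 1`
  have hL : ∀ q, P (F (q + 1) - 1) = q := fun q => by rw [hF2]; ring
  have Fst : StrictMono F := strictMono_int_of_lt_succ Fm
  have stk : ∀ k, St (fun k => col (P k)) k → St col (P k) ∧ k = F (P k) := by
    intro k hk
    obtain ⟨h1, h2⟩ := (st_pull hP hP').1 hk
    exact ⟨h1, hF k _ rfl h2⟩
  refine ⟨fun k => F (σ (P k) + 1) - 1, ⟨?_, ?_, ?_, ?_, ?_, ?_, ?_⟩, fun k _ => hL _⟩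
  · intro k hk
    obtain ⟨h1, h2⟩ := stk k hk
    refine (ed_pull hP hP').2 ⟨?_, ?_⟩
    · rw [hL]; exact h.ed _ h1
    · rw [hL, sub_add_cancel, hF1]
  · intro k hk
    obtain ⟨h1, h2⟩ := stk k hk
    have h3 := h.ge _ h1
    have h4 := Fst (show P k < σ (P k) + 1 by omega)
    omega
  · intro k hk
    obtain ⟨h1, h2⟩ := stk k hk
    have h3 := h.lt _ h1
    have h4 := Fst.monotone (show σ (P k) + 1 ≤ P k + n by omega)
    rw [Fper] at h4
    omega
  · intro k
    rw [per, h.per, show σ (P k) + n + 1 = σ (P k) + 1 + n by ring, Fper]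
    ring
  · intro k k' hk hk' e
    obtain ⟨h1, h2⟩ := stk k hk
    obtain ⟨h3, h4⟩ := stk k' hk'
    have e1 : F (σ (P k) + 1) = F (σ (P k') + 1) := by omega
    have e2 := Fst.injective e1
    have e3 := h.inj _ _ h1 h3 (by omega)
    rw [h2, h4, e3]
  · intro q hq
    obtain ⟨h1, h2⟩ := (ed_pull hP hP').1 hq
    obtain ⟨p, hp, hp'⟩ := h.surj _ h1
    have hk : P (F p) = p := hF1 p
    refine ⟨F p, (st_pull hP hP').2 ⟨by rw [hk]; exact hp, by rw [hk, hF2]⟩, ?_⟩
    rw [hk, hp']
    have e : q + 1 = F (P q + 1) := hF _ _ h2 (by rw [add_sub_cancel_right]; ring)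
    omega
  · intro k1 k2 hk1 hk2 h12 h3 h4 h5
    obtain ⟨a1, a2⟩ := stk k1 hk1
    obtain ⟨b1, b2⟩ := stk k2 hk2
    have c1 : P k1 < P k2 := by
      by_contra hc
      have := Fst.monotone (show P k2 ≤ P k1 by omega)
      omega
    have c2 : P k2 ≤ σ (P k1) := by
      by_contra hc
      have := Fst.monotone (show σ (P k1) + 1 ≤ P k2 by omega)
      omega
    have c3 : σ (P k1) < σ (P k2) := by
      by_contra hc
      have := Fst.monotone (show σ (P k2) + 1 ≤ σ (P k1) + 1 by omega)
      omega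
    have c4 : σ (P k2) < P k1 + n := by
      by_contra hc
      have := Fst (show P k1 + n < σ (P k2) + 1 by omega)
      rw [Fper] at this
      omega
    exact h.nc _ _ a1 b1 c1 c2 c3 c4

end pull

end Pool.Agent.H40.W.R3
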