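import Mathlib
import Pool.Agent.H40.W.R3.Ord

set_option autoImplicit false

/-! # The matching cut behind the root

`MatA N col l0 s` : 83's structure `Mat` for a ring with the colours `col` and the period `N`: `s` maps the
starts of `(l0, l0 + N]` to the ends of `(l0, l0 + N]`, the chords (ray `k`, ray `s k + 1`) do not cross.
`Sig.exists_mat` : it exists for every matching `Sig N col τ`, `s k ∈ {τ k, τ k - N}`. -/

namespace Pool.Agent.H40.W.R3

/-- first ray of the chord of the start `k` -/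
def ca (s : ℤ → ℤ) (k : ℤ) : ℤ := min k (s k + 1)

/-- second ray -/
def cb (s : ℤ → ℤ) (k : ℤ) : ℤ := max k (s k + 1)

/-- **noncrossing matching cut behind the end `l0`** -/
structure MatA (N : ℤ) (col : ℤ → Bool) (l0 : ℤ) (s : ℤ → ℤ) : Prop where
  root : Ed col l0
  maps : ∀ k, l0 < k → k ≤ l0 + N → St col k → l0 < s k ∧ s k ≤ l0 + N ∧ Ed col (s k)
  inj : ∀ k k', l0 < k → k ≤ l0 + N → St col k → l0 < k' → k' ≤ l0 + N → St col k' → s k = s k' → k = k'
  nc : ∀ k k', l0 < k → k ≤ l0 + N → St col k → l0 < k' → k' ≤ l0 + N → St col k' → k ≠ k' →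
    cb s k < ca s k' ∨ cb s k' < ca s k ∨ (ca s k < ca s k' ∧ cb s k' < cb s k) ∨
      (ca s k' < ca s k ∧ cb s k < cb s k')

variable {N : ℤ} {col : ℤ → Bool} {τ : ℤ → ℤ} {l0 : ℤ}

/-- **The matching cut behind `l0`.** -/
theorem Sig.exists_mat (h : Sig N col τ) (per : ∀ k, col (k + N) = col k) (h0 : Ed col l0) :
    ∃ s : ℤ → ℤ, MatA N col l0 s ∧ ∀ k, s k = τ k ∨ s k = τ k - N := by
  classical
  set s : ℤ → ℤ := fun k => if τ k ≤ l0 + N then τ k else τ k - N with hs
  have s1 : ∀ k, (τ k ≤ l0 + N ∧ s k = τ k) ∨ (l0 + N < τ k ∧ s k = τ k - N) := by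
    intro k
    simp only [hs]
    by_cases h1 : τ k ≤ l0 + N
    · rw [if_pos h1]; exact Or.inl ⟨h1, rfl⟩
    · rw [if_neg h1]; exact Or.inr ⟨by omega, rfl⟩
  have edN : ∀ q, Ed col q → Ed col (q - N) := by
    intro q hq
    have := ed_mul per (-1) hq
    rwa [neg_one_mul, ← sub_eq_add_neg] at this
  have stN : ∀ q, St col q → St col (q - N) := by
    intro q hq
    have := st_mul per (-1) hq
    rwa [neg_one_mul, ← sub_eq_add_neg] at this
  have τN : ∀ q, τ (q - N) = τ q - N := by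
    intro q
    have := h.per (q - N)
    rw [sub_add_cancel] at this
    omega
  -- an end in front of a start
  have hne : ∀ l k, Ed col l → St col k → l + 1 ≠ k := by
    intro l k hl hk e
    have := hl.2
    rw [e, hk.2] at this
    exact absurd this (by simp)
  have hmap : ∀ k, l0 < k → k ≤ l0 + N → St col k → l0 < s k ∧ s k ≤ l0 + N ∧ Ed col (s k) := by
    intro k h1 h2 hk
    have a1 := h.ge k hk
    have a2 := h.lt k hk
    have a3 := h.ed k hk
    rcases s1 k with ⟨b1, b2⟩ | ⟨b1, b2⟩ <;> rw [b2]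
    · exact ⟨by omega, b1, a3⟩
    · exact ⟨by omega, by omega, edN _ a3⟩
  have hinj : ∀ k k', l0 < k → k ≤ l0 + N → St col k → l0 < k' → k' ≤ l0 + N → St col k' →
      s k = s k' → k = k' := by
    intro k k' h1 h2 hk h1' h2' hk' e
    rcases s1 k with ⟨b1, b2⟩ | ⟨b1, b2⟩ <;> rcases s1 k' with ⟨c1, c2⟩ | ⟨c1, c2⟩ <;>
      rw [b2, c2] at e
    · exact h.inj k k' hk hk' e
    · have e2 := h.inj k (k' - N) hk (stN _ hk') (by rw [τN]; exact e)
      omega
    · have e2 := h.inj (k - N) k' (stN _ hk) hk' (by rw [τN]; exact e)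
      omega
    · exact h.inj k k' hk hk' (by omega)
  -- no crossing, one order
  have key : ∀ k k', l0 < k → k ≤ l0 + N → St col k → l0 < k' → k' ≤ l0 + N → St col k' → k ≠ k' →
      ca s k < ca s k' → ca s k' < cb s k → cb s k < cb s k' → False := by
    intro k k' h1 h2 hk h1' h2' hk' hkk g1 g2 g3
    obtain ⟨m1, m2, m3⟩ := hmap k h1 h2 hk
    obtain ⟨m1', m2', m3'⟩ := hmap k' h1' h2' hk'
    have a1 := h.ge k hk
    have a2 := h.lt k hk
    have a1' := h.ge k' hk'
    have a2' := h.lt k' hk'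
    have n1 := hne _ _ m3 hk
    have n2 := hne _ _ m3 hk'
    have n3 := hne _ _ m3' hk
    have n4 := hne _ _ m3' hk'
    simp only [ca, cb] at g1 g2 g3
    rcases s1 k with ⟨b1, b2⟩ | ⟨b1, b2⟩ <;> rcases s1 k' with ⟨c1, c2⟩ | ⟨c1, c2⟩
    · exact h.nc k k' hk hk' (by omega) (by omega) (by omega) (by omega)
    · have e1 := τN k'
      exact h.nc (k' - N) k (stN _ hk') hk (by omega) (by omega) (by omega) (by omega)
    · exact h.nc k' k hk' hk (by omega) (by omega) (by omega) (by omega)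
    · exact h.nc k k' hk hk' (by omega) (by omega) (by omega) (by omega)
  refine ⟨s, ⟨h0, hmap, hinj, ?_⟩, fun k => (s1 k).imp (fun h => h.2) fun h => h.2⟩
  intro k k' h1 h2 hk h1' h2' hk' hkk
  have m3 := (hmap k h1 h2 hk).2.2
  have m3' := (hmap k' h1' h2' hk').2.2
  have n1 := hne _ _ m3 hk
  have n2 := hne _ _ m3 hk'
  have n3 := hne _ _ m3' hk
  have n4 := hne _ _ m3' hk'
  have n5 : s k ≠ s k' := fun e => hkk (hinj k k' h1 h2 hk h1' h2' hk' e)
  have k1 := key k k' h1 h2 hk h1' h2' hk' hkk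
  have k2 := key k' k h1' h2' hk' h1 h2 hk (Ne.symm hkk)
  have p1 : ca s k ≠ ca s k' := by unfold ca; omega
  have p2 : cb s k ≠ cb s k' := by unfold cb; omega
  have p3 : ca s k ≠ cb s k' := by unfold ca cb; omega
  have p4 : cb s k ≠ ca s k' := by unfold ca cb; omega
  have q1 : ca s k ≤ cb s k := by unfold ca cb; omega
  have q2 : ca s k' ≤ cb s k' := by unfold ca cb; omega
  by_contra hc
  rcases lt_or_gt_of_ne p1 with g | g
  · rcases lt_or_gt_of_ne p4 with g' | g'
    · exact hc (Or.inl g')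
    · rcases lt_or_gt_of_ne p2 with g'' | g''
      · exact k1 g g' g''
      · exact hc (Or.inr (Or.inr (Or.inl ⟨g, g''⟩)))
  · rcases lt_or_gt_of_ne p3 with g' | g'
    · rcases lt_or_gt_of_ne p2 with g'' | g''
      · exact hc (Or.inr (Or.inr (Or.inr ⟨g, g''⟩)))
      · exact k2 g g' g''
    · exact hc (Or.inr (Or.inl g'))

/-- the end `l0 + N` is the partner of a start of `(l0, l0 + N]` -/
theorem MatA.root_start (h : Sig N col τ) (per : ∀ k, col (k + N) = col k) (h0 : Ed col l0) :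
    ∃ k0, l0 < k0 ∧ k0 ≤ l0 + N ∧ St col k0 ∧ τ k0 = l0 + N := by
  have h1 : Ed col (l0 + N) := by simpa using ed_mul per 1 h0
  obtain ⟨p, hp, hp'⟩ := h.surj _ h1
  have h2 := h.ge p hp
  have h3 := h.lt p hp
  exact ⟨p, by omega, by omega, hp, hp'⟩

end Pool.Agent.H40.W.R3
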