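import Mathlib
import Pool.Agent.H13.W.Graph
import Pool.Agent.H75.TwoArm.Exit
import Pool.Agent.Q1.M6c.Dob

set_option autoImplicit false
open Finset

/-! # First return of the strands from outside

`Λ` : the outside (a set of labels), `V` : open labels. `Ex Λ c` : exit (the strand leaves the inside
through `c`), `En Λ c` : entrance. `rt Λ V c` : the entrance at which the strand of the exit `c` returns.
`rt` is a bijection (`rt_inj`, `rt_surj`), it is a strand of `SG Λ ∅ V` (`rt_reach`) and has connected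
sides (`rt_co`, `rt_dco`). `rt_congr` : only the labels of `Λ` count. `root_cases` : the root. -/

namespace Pool.Agent.H40.W.R3

open Pool.Agent.H75.Perc Pool.Agent.H75.TwoArm Pool.Agent.H99.W Pool.Agent.H13.W Pool.Agent.Q1
open Pool.Agent.H75.Four Pool.Agent.H69.Q1 Pool.Agent.Q1.M6c

/-- exit: the strand leaves the inside -/
def Ex (Λ : Set (ℤ × ℤ)) (c : ℤ × ℤ) : Prop := plab c ∉ Λ ∧ lab c ∈ Λ

/-- entrance: the strand enters the inside -/
def En (Λ : Set (ℤ × ℤ)) (c : ℤ × ℤ) : Prop := plab c ∈ Λ ∧ lab c ∉ Λ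

/-- number of steps outside -/
noncomputable def rn (Λ : Set (ℤ × ℤ)) (V : Finset (ℤ × ℤ)) (c : ℤ × ℤ) : ℕ :=
  sInf {n | lab ((nx V)^[n] c) ∉ Λ}

/-- the entrance at which the strand returns -/
noncomputable def rt (Λ : Set (ℤ × ℤ)) (V : Finset (ℤ × ℤ)) (c : ℤ × ℤ) : ℤ × ℤ :=
  (nx V)^[rn Λ V c] c

variable {Λ : Set (ℤ × ℤ)} {V : Finset (ℤ × ℤ)} {c d : ℤ × ℤ}

lemma plab_nx (V : Finset (ℤ × ℤ)) (c : ℤ × ℤ) : plab (nx V c) = lab c := SymmAux.plab_nx' V c

lemma plab_iter (V : Finset (ℤ × ℤ)) (c : ℤ × ℤ) (n : ℕ) :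
    plab ((nx V)^[n + 1] c) = lab ((nx V)^[n] c) := by
  rw [Function.iterate_succ_apply', plab_nx]

/-- the strand of a corner which comes from the inside enters the inside -/
lemma exists_in (h : plab c ∉ Λ) : ∃ n, lab ((nx V)^[n] c) ∉ Λ := by
  obtain ⟨M, hM⟩ := ExitAux.exists_period V c
  obtain ⟨m, rfl⟩ : ∃ m, M = m + 1 := ⟨M - 1, by have := hM.pos; omega⟩
  refine ⟨m, ?_⟩
  rw [← plab_iter, hM.per]
  exact h

lemma rn_spec (h : ∃ n, lab ((nx V)^[n] c) ∉ Λ) : lab (rt Λ V c) ∉ Λ :=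
  Nat.sInf_mem (s := {n | lab ((nx V)^[n] c) ∉ Λ}) h

lemma rn_lt {i : ℕ} (h : i < rn Λ V c) : lab ((nx V)^[i] c) ∈ Λ := by
  by_contra h1
  exact Nat.notMem_of_lt_sInf h h1

lemma rn_le {n : ℕ} (h : lab ((nx V)^[n] c) ∉ Λ) : rn Λ V c ≤ n := Nat.sInf_le h

lemma Ex.rn_pos (h : Ex Λ c) : 0 < rn Λ V c := by
  rcases Nat.eq_zero_or_pos (rn Λ V c) with h1 | h1
  · exfalso
    have h2 := rn_spec (V := V) (exists_in h.1)
    unfold rt at h2
    rw [h1] at h2
    exact h2 h.2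
  · exact h1

/-- **The return is an entrance.** -/
theorem rt_en (h : Ex Λ c) : En Λ (rt Λ V c) := by
  refine ⟨?_, rn_spec (exists_in h.1)⟩
  obtain ⟨m, hm⟩ : ∃ m, rn Λ V c = m + 1 := ⟨rn Λ V c - 1, by have := h.rn_pos (V := V); omega⟩
  unfold rt
  rw [hm, plab_iter]
  exact rn_lt (by omega)

/-- a strand in `Λ` up to the time `n`, compared with the return of an exit -/
lemma iter_eq {n : ℕ} (hc : Ex Λ c) {e : ℤ × ℤ}
    (hn : ∀ i < n, lab ((nx V)^[i] e) ∈ Λ) (h : (nx V)^[n] e = rt Λ V c) :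
    ∃ m, m + n = rn Λ V c ∧ (nx V)^[m] c = e := by
  unfold rt at h
  by_cases hle : n ≤ rn Λ V c
  · refine ⟨rn Λ V c - n, by omega, ?_⟩
    have e1 : (nx V)^[rn Λ V c] c = (nx V)^[n] ((nx V)^[rn Λ V c - n] c) := by
      rw [← Function.iterate_add_apply]
      congr 2
      omega
    rw [e1] at h
    exact ((nx_injective V).iterate n h).symm
  · exfalso
    obtain ⟨k, hk⟩ : ∃ k, n = rn Λ V c + k + 1 := ⟨n - rn Λ V c - 1, by omega⟩
    rw [hk, show rn Λ V c + k + 1 = rn Λ V c + (k + 1) by omega, Function.iterate_add_apply] at h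
    have h1 := (nx_injective V).iterate _ h
    have h2 := plab_iter V e k
    rw [h1] at h2
    exact hc.1 (h2 ▸ hn k (by omega))

/-- **The return is injective.** -/
theorem rt_inj (hc : Ex Λ c) (hd : Ex Λ d) (h : rt Λ V c = rt Λ V d) : c = d := by
  wlog hle : rn Λ V c ≤ rn Λ V d generalizing c d
  · exact (this hd hc h.symm (by omega)).symm
  unfold rt at h
  obtain ⟨k, hk⟩ : ∃ k, rn Λ V d = rn Λ V c + k := ⟨rn Λ V d - rn Λ V c, by omega⟩
  rw [hk, Function.iterate_add_apply] at h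
  have h1 := (nx_injective V).iterate _ h
  rcases k with _ | k
  · exact h1
  · exfalso
    have h2 := plab_iter V d k
    rw [← h1] at h2
    exact hc.1 (h2 ▸ rn_lt (by omega))

/-- **The return is surjective.** -/
theorem rt_surj (hd : En Λ d) (V : Finset (ℤ × ℤ)) : ∃ c, Ex Λ c ∧ rt Λ V c = d := by
  classical
  obtain ⟨M, hM⟩ := ExitAux.exists_period V d
  -- the last time before the period at which the strand comes from the inside
  have hex : ∃ m, m ≤ M ∧ plab ((nx V)^[M - m] d) ∉ Λ := by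
    refine ⟨M - 1, by omega, ?_⟩
    have e1 : M - (M - 1) = 0 + 1 := by have := hM.pos; omega
    rw [e1, plab_iter]
    exact hd.2
  set m := Nat.find hex with hm
  obtain ⟨h1, h2⟩ := Nat.find_spec hex
  have h3 : ∀ j < m, plab ((nx V)^[M - j] d) ∈ Λ := by
    intro j hj
    by_contra h
    exact Nat.find_min hex hj ⟨by omega, h⟩
  have hpos : 0 < m := by
    rcases Nat.eq_zero_or_pos m with h | h
    · exfalso
      rw [← hm, h, Nat.sub_zero, hM.per] at h2
      exact h2 hd.1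
    · exact h
  have hlab : ∀ i < m, lab ((nx V)^[i] ((nx V)^[M - m] d)) ∈ Λ := by
    intro i hi
    rw [← Function.iterate_add_apply]
    have e1 := plab_iter V d (i + (M - m))
    rw [← e1]
    have e2 : i + (M - m) + 1 = M - (m - i - 1) := by omega
    rw [e2]
    exact h3 _ (by omega)
  have hEx : Ex Λ ((nx V)^[M - m] d) := ⟨h2, by simpa using hlab 0 hpos⟩
  refine ⟨_, hEx, ?_⟩
  have hend : (nx V)^[m] ((nx V)^[M - m] d) = d := by
    rw [← Function.iterate_add_apply, show m + (M - m) = M by omega]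
    exact hM.per
  have hrn : rn Λ V ((nx V)^[M - m] d) = m := by
    refine le_antisymm (rn_le ?_) ?_
    · rw [hend]; exact hd.2
    · by_contra h
      exact rn_spec (V := V) (exists_in hEx.1) (hlab _ (by omega))
  unfold rt
  rw [hrn, hend]

/-- a strand in `Λ` is a path of the strand graph -/
lemma reach_iter {n : ℕ} (h : ∀ i < n, lab ((nx V)^[i] c) ∈ Λ) :
    (SG Λ ∅ V).Reachable c ((nx V)^[n] c) := by
  induction n with
  | zero => exact SimpleGraph.Reachable.refl _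
  | succ n ih =>
    refine (ih fun i hi => h i (by omega)).trans ?_
    rw [Function.iterate_succ_apply']
    refine SimpleGraph.Adj.reachable ?_
    exact ⟨_, h n (by omega), Or.inr ⟨Set.notMem_empty _, Or.inl ⟨rfl, rfl⟩⟩⟩

/-- the open side of a strand in `Λ` is connected by labels of `A` -/
lemma co_iter {A : Finset (ℤ × ℤ)} (hA : ∀ e ∈ Λ, e ∈ V → e ∈ A) {n : ℕ}
    (h : ∀ i < n, lab ((nx V)^[i] c) ∈ Λ) : Co A (vx c) (vx ((nx V)^[n] c)) := by
  induction n with
  | zero => exact Co.refl _ _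
  | succ n ih =>
    refine (ih fun i hi => h i (by omega)).trans ?_
    rw [Function.iterate_succ_apply']
    exact co_nx_step fun h1 => hA _ (h n (by omega)) h1

/-- the closed side of a strand in `Λ` is connected off `A` -/
lemma dco_iter {A : Finset (ℤ × ℤ)} (hA : ∀ e ∈ Λ, e ∈ A → e ∈ V) {n : ℕ}
    (h : ∀ i < n, lab ((nx V)^[i] c) ∈ Λ) : DCo A (fi c) (fi ((nx V)^[n] c)) := by
  induction n with
  | zero => exact DCo.refl _ _
  | succ n ih =>
    refine (ih fun i hi => h i (by omega)).trans ?_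
    rw [Function.iterate_succ_apply']
    exact dco_nx_step fun h1 h2 => h1 (hA _ (h n (by omega)) h2)

/-- two worlds which agree in `Λ` have the same strands in `Λ` -/
lemma iter_congr {w : Finset (ℤ × ℤ)} (hw : ∀ e ∈ Λ, (e ∈ w ↔ e ∈ V)) {n : ℕ}
    (h : ∀ i < n, lab ((nx V)^[i] c) ∈ Λ) : (nx w)^[n] c = (nx V)^[n] c := by
  induction n with
  | zero => rfl
  | succ n ih =>
    rw [Function.iterate_succ_apply', Function.iterate_succ_apply', ih fun i hi => h i (by omega)]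
    unfold nx
    have h1 := hw _ (h n (by omega))
    unfold nx at h1
    by_cases h2 : lab ((fun c => if lab c ∈ V then nxO c else nxC c)^[n] c) ∈ V
    · rw [if_pos h2, if_pos (h1.2 h2)]
    · rw [if_neg h2, if_neg fun h3 => h2 (h1.1 h3)]

theorem rt_reach (c : ℤ × ℤ) : (SG Λ ∅ V).Reachable c (rt Λ V c) := reach_iter fun _ hi => rn_lt hi

theorem rt_co {A : Finset (ℤ × ℤ)} (hA : ∀ e ∈ Λ, e ∈ V → e ∈ A) (c : ℤ × ℤ) :
    Co A (vx c) (vx (rt Λ V c)) := co_iter hA fun _ hi => rn_lt hi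

theorem rt_dco {A : Finset (ℤ × ℤ)} (hA : ∀ e ∈ Λ, e ∈ A → e ∈ V) (c : ℤ × ℤ) :
    DCo A (fi c) (fi (rt Λ V c)) := dco_iter hA fun _ hi => rn_lt hi

/-- only the labels of `Λ` count -/
theorem rt_congr {w : Finset (ℤ × ℤ)} (hw : ∀ e ∈ Λ, (e ∈ w ↔ e ∈ V)) (hc : plab c ∉ Λ) :
    rn Λ w c = rn Λ V c ∧ rt Λ w c = rt Λ V c := by
  have e1 : rn Λ w c = rn Λ V c := by
    refine le_antisymm (rn_le ?_) (rn_le ?_)
    · rw [iter_congr hw fun i hi => rn_lt hi]
      exact rn_spec (exists_in hc)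
    · rw [iter_congr (V := w) (w := V) (fun e he => (hw e he).symm) fun i hi => rn_lt hi]
      exact rn_spec (exists_in hc)
  refine ⟨e1, ?_⟩
  unfold rt
  rw [e1]
  exact iter_congr hw fun i hi => rn_lt hi

/-- **The root.** Either the strand of `c0` never enters the inside, or it enters at the return `rt x` of
an exit `x`, and `c0` lies on the outer strand from `x` to `rt x`. -/
theorem root_cases {c0 : ℤ × ℤ} (h0 : plab c0 ∈ Λ) :
    (∀ n, lab ((nx V)^[n] c0) ∈ Λ) ∨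
    ∃ x m n, Ex Λ x ∧ m + n = rn Λ V x ∧ (nx V)^[m] x = c0 ∧ (nx V)^[n] c0 = rt Λ V x ∧
      ∀ i < n, lab ((nx V)^[i] c0) ∈ Λ := by
  by_cases h : ∀ n, lab ((nx V)^[n] c0) ∈ Λ
  · exact Or.inl h
  · right
    push Not at h
    have h1 : lab (rt Λ V c0) ∉ Λ := rn_spec h
    have h2 : plab (rt Λ V c0) ∈ Λ := by
      rcases Nat.eq_zero_or_pos (rn Λ V c0) with h3 | h3
      · unfold rt
        rw [h3]
        exact h0
      · obtain ⟨m, hm⟩ : ∃ m, rn Λ V c0 = m + 1 := ⟨rn Λ V c0 - 1, by omega⟩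
        unfold rt
        rw [hm, plab_iter]
        exact rn_lt (by omega)
    obtain ⟨x, hx, hx'⟩ := rt_surj ⟨h2, h1⟩ V
    obtain ⟨m, h3, h4⟩ := iter_eq (V := V) (n := rn Λ V c0) hx (fun i hi => rn_lt hi) hx'.symm
    exact ⟨x, m, rn Λ V c0, hx, h3, h4, hx'.symm, fun i hi => rn_lt hi⟩

/-- the strand of the root before it enters: its sides are joined with the sides of `x` and `rt x` -/
theorem root_co {c0 x : ℤ × ℤ} {m n : ℕ} (h1 : m + n = rn Λ V x) (h2 : (nx V)^[m] x = c0)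
    {A : Finset (ℤ × ℤ)} :
    ((∀ e ∈ Λ, e ∈ V → e ∈ A) → Co A (vx x) (vx c0)) ∧
    ((∀ e ∈ Λ, e ∈ A → e ∈ V) → DCo A (fi x) (fi c0)) := by
  subst h2
  exact ⟨fun h => co_iter h fun i hi => rn_lt (by omega), fun h => dco_iter h fun i hi => rn_lt (by omega)⟩

/-- a world `w` which agrees with `V` in `Λ` and a root whose strand never enters in `V` -/
theorem never_congr {c0 : ℤ × ℤ} (h : ∀ n, lab ((nx V)^[n] c0) ∈ Λ) {w : Finset (ℤ × ℤ)}
    (hw : ∀ e ∈ Λ, (e ∈ w ↔ e ∈ V)) (n : ℕ) : (nx w)^[n] c0 = (nx V)^[n] c0 :=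
  iter_congr hw fun i _ => h i

/-- **If the strand of the root never enters then all increments inside vanish.** -/
theorem never_inc {X : Env} (hX : PlaneEnv X V) (hE : ∀ e ∈ X.E, e ∉ Λ) (h0 : plab X.c0 ∈ Λ)
    (h : ∀ n, lab ((nx V)^[n] X.c0) ∈ Λ) {c : ℤ × ℤ} (hc : lab c ∉ Λ ∨ plab c ∉ Λ) : X.inc c = 0 := by
  have h1 : ∀ ω ⊆ X.E, ∀ n, X.z ω n = (nx V)^[n] X.c0 := by
    intro ω hω n
    rw [hX.zz ω hω n]
    refine never_congr h (fun e he => ?_) n
    rw [mem_union]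
    exact ⟨fun k => k.resolve_left fun k' => hE e (hω k') he, Or.inr⟩
  unfold Env.inc
  rw [Finset.sum_eq_zero, mul_zero]
  intro ω hω
  rw [mem_powerset] at hω
  refine Env.incO_zero fun i _ hi => ?_
  rw [h1 ω hω] at hi
  rcases hc with hc | hc
  · exact hc (hi ▸ h i)
  · rcases i with _ | i
    · exact hc (hi ▸ h0)
    · have := plab_iter V X.c0 i
      rw [hi] at this
      exact hc (this ▸ h i)

/-- the two sides of an outer strand between an exit and its return, with random labels inside -/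
theorem rt_sides {E : Finset (ℤ × ℤ)} (hE : ∀ e ∈ E, e ∉ Λ) (c : ℤ × ℤ) :
    Co V (vx c) (vx (rt Λ V c)) ∧ DCo (E ∪ V) (fi c) (fi (rt Λ V c)) := by
  refine ⟨rt_co (fun _ _ h => h) c, rt_dco (fun e he h => ?_) c⟩
  rcases mem_union.1 h with h1 | h1
  · exact absurd he (hE e h1)
  · exact h1

end Pool.Agent.H40.W.R3
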