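import Mathlib
import Pool.Agent.H68.G.RingM
import Pool.Agent.H40.W.R3.Mat
import Pool.Agent.H40.W.R3.Rt

set_option autoImplicit false
open Finset

/-! # The matching of the plates by the outer strands of a square

`rel_of_ring` : the ring of 68 with plate numbers `Q j` gives the relation `Rel`. `exists_sig_ring` : a
noncrossing bijection `σ` from the starts `p` to the ends `q` of the plate ring, the strand which leaves the
square through the side `J p - 1` comes back through the side `J (σ p + 1)`. `Ret_sides` : the sides of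
this strand are joined outside of the square. -/

namespace Pool.Agent.H40.W.R3

open Pool.Agent.H75.Perc hiding WL CT hh
open Pool.Agent.H75.TwoArm Pool.Agent.H33.Q1 Pool.Agent.H13.W Pool.Agent.H47.W
open Pool.Agent.H69.Q1 Pool.Agent.H75.Four Pool.Agent.H68.G
open Pool.Agent.Q1 (DCo)

variable {o : ℤ × ℤ} {R : ℤ} {w : Finset (ℤ × ℤ)} {cs : ℤ → Bool} {n : ℤ} {col : ℤ → Bool} {J Q : ℤ → ℤ}

/-- the sides of a returning strand are joined outside -/
theorem Ret_sides {Λ : Set (ℤ × ℤ)} {c d : ℤ × ℤ} (h : Ret Λ w c d) {E : Finset (ℤ × ℤ)}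
    (hE : ∀ e ∈ E, e ∉ Λ) : Co w (vx c) (vx d) ∧ DCo (E ∪ w) (fi c) (fi d) := by
  obtain ⟨k, rfl, -, h3⟩ := h
  refine ⟨co_iter (fun _ _ h => h) h3, dco_iter (fun e he h => ?_) h3⟩
  rcases mem_union.1 h with h1 | h1
  · exact absurd he (hE e h1)
  · exact h1

/-- `Ret` is the return `rt` -/
theorem Ret_eq {Λ : Set (ℤ × ℤ)} {c d : ℤ × ℤ} (h : Ret Λ w c d) : rt Λ w c = d := by
  obtain ⟨k, h1, h2, h3⟩ := h
  have e : rn Λ w c = k := by
    refine le_antisymm (rn_le (by rw [h1]; exact h2)) ?_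
    by_contra hc
    exact rn_spec (V := w) ⟨k, by rw [h1]; exact h2⟩ (h3 _ (by omega))
  unfold rt
  rw [e, h1]

/-- **The relation of the plates** -/
theorem rel_of_ring (h : Ring o R w cs) (hn : 0 < n) (hQ : ∀ j, Q j ≤ Q (j + 1))
    (hQ' : ∀ j, Q (j + 1) ≤ Q j + 1) (Qper : ∀ j, Q (j + 8 * R) = Q j + n) (hJ : ∀ p, Q (J p) = p)
    (hJ' : ∀ p, Q (J p - 1) = p - 1) (per : ∀ p, col (p + n) = col p) (hcol : ∀ j, cs j = col (Q j)) :
    Rel n col J (8 * R) (fun i j => Ret (Ou o R) w (sd o R i) (sd o R j)) := by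
  have hF : ∀ k p, Q k = p → Q (k - 1) = p - 1 → k = J p := fun k p h1 h2 =>
    first_unique hQ h1 h2 (hJ p) (hJ' p)
  have hev : ∀ p, col (p - 1) ≠ col p → J p % 2 = 0 := by
    intro p hp
    refine h.even _ ?_
    rw [hcol, hcol, hJ, hJ']
    exact hp
  have hE : ∀ q, Ed col q → cs (J (q + 1) - 1) = true ∧ cs (J (q + 1)) = false := by
    intro q hq
    rw [hcol, hcol, hJ, hJ', add_sub_cancel_right]
    exact hq
  have hS : ∀ p, St col p → cs (J p - 1) = false ∧ cs (J p) = true := by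
    intro p hp
    rw [hcol, hcol, hJ, hJ']
    exact hp
  -- a change of the colour is the first side of a plate
  have hch : ∀ j, cs (j - 1) ≠ cs j → j = J (Q j) ∧ Q (j - 1) = Q j - 1 := by
    intro j hj
    have h1 := hQ (j - 1)
    have h2 := hQ' (j - 1)
    rw [sub_add_cancel] at h1 h2
    have h3 : Q (j - 1) ≠ Q j := fun e => hj (by rw [hcol, hcol, e])
    have h4 : Q (j - 1) = Q j - 1 := by omega
    exact ⟨hF _ _ rfl h4, h4⟩
  refine ⟨hn, per, ?_, ?_, hev, ?_, ?_, ?_, ?_, ?_, ?_, ?_, ?_, ?_⟩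
  · intro p
    by_contra hc
    have h1 := P_mono hQ (show J (p + 1) ≤ J p by omega)
    rw [hJ, hJ] at h1
    omega
  · intro p
    refine (hF _ _ ?_ ?_).symm
    · rw [Qper, hJ]
    · rw [show J p + 8 * R - 1 = J p - 1 + 8 * R by ring, Qper, hJ']
      ring
  · intro p hp
    obtain ⟨l, h1, h2, h3⟩ := h.ret_start (hS p hp).1 (hS p hp).2
    obtain ⟨h4, h5⟩ := hch l (by rw [h2, h3]; simp)
    refine ⟨Q (l - 1), ⟨?_, ?_⟩, ?_⟩
    · rw [← hcol]; exact h2
    · rw [h5, sub_add_cancel, ← hcol]; exact h3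
    · rw [h5, sub_add_cancel, ← h4]
      exact h1
  · intro q hq
    obtain ⟨j, h1, h2, h3⟩ := h.ret_end (hE q hq).1 (hE q hq).2
    obtain ⟨h4, h5⟩ := hch j (by rw [h2, h3]; simp)
    refine ⟨Q j, ⟨?_, ?_⟩, ?_⟩
    · rw [← h5, ← hcol]; exact h2
    · rw [← hcol]; exact h3
    · rw [← h4]; exact h1
  · intro i j hr
    rw [sd_add]; exact hr
  · intro i j hr
    rw [sd_add] at hr; exact hr
  · intro i j hr
    rw [sd_add]; exact hr
  · intro i j hr
    rw [sd_add] at hr; exact hr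
  · intro i j j' hr hr'
    exact sd_inj h.hR (hr.unique hr')
  · intro i i' j hi hi' hr hr'
    have e1 := hev i (by rw [hi.1, hi.2]; simp)
    have e2 := hev i' (by rw [hi'.1, hi'.2]; simp)
    exact sd_inj h.hR (hr.inj hr' (out_odd h.hR h.ho (by omega)).2 (out_odd h.hR h.ho (by omega)).2)
  · intro j1 j2 j3 j4 h12 h23 h34 h41 hr hr'
    exact h.nc h12 h23 h34 h41 hr hr'

/-- **The matching of the plates** and of a refinement `P` of the plate ring (period `N`, colours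
`col (P k)`). -/
theorem exists_sig_ring (h : Ring o R w cs) (hn : 0 < n) (hQ : ∀ j, Q j ≤ Q (j + 1))
    (hQ' : ∀ j, Q (j + 1) ≤ Q j + 1) (Qper : ∀ j, Q (j + 8 * R) = Q j + n) (hJ : ∀ p, Q (J p) = p)
    (hJ' : ∀ p, Q (J p - 1) = p - 1) (per : ∀ p, col (p + n) = col p) (hcol : ∀ j, cs j = col (Q j)) :
    ∃ σ : ℤ → ℤ, Sig n col σ ∧
      (∀ p, St col p → Ret (Ou o R) w (sd o R (J p - 1)) (sd o R (J (σ p + 1)))) ∧
      ∀ {N : ℤ} {P : ℤ → ℤ}, 0 < N → (∀ k, P k ≤ P (k + 1)) → (∀ k, P (k + 1) ≤ P k + 1) →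
        (∀ k, P (k + N) = P k + n) → ∃ τ : ℤ → ℤ, Sig N (fun k => col (P k)) τ ∧
          ∀ k, St (fun k => col (P k)) k → P (τ k) = σ (P k) := by
  obtain ⟨σ, h1, h2⟩ := (rel_of_ring h hn hQ hQ' Qper hJ hJ' per hcol).exists_sig
  exact ⟨σ, h1, h2, fun hN hP hP' hper => h1.pull hn hN hP hP' hper⟩

/-- **The matching of the positions, cut behind `l0`** (83's `Mat`), with the outer strands. `P k` : plate of
the position `k`, `cp k = col (P k)` : its colour. The last conclusion: the root. -/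
theorem exists_mat_ring (h : Ring o R w cs) (hn : 0 < n) (hQ : ∀ j, Q j ≤ Q (j + 1))
    (hQ' : ∀ j, Q (j + 1) ≤ Q j + 1) (Qper : ∀ j, Q (j + 8 * R) = Q j + n) (hJ : ∀ p, Q (J p) = p)
    (hJ' : ∀ p, Q (J p - 1) = p - 1) (per : ∀ p, col (p + n) = col p) (hcol : ∀ j, cs j = col (Q j))
    {N : ℤ} {P : ℤ → ℤ} {cp : ℤ → Bool} (hN : 0 < N) (hP : ∀ k, P k ≤ P (k + 1))
    (hP' : ∀ k, P (k + 1) ≤ P k + 1) (Pper : ∀ k, P (k + N) = P k + n) (hcp : ∀ k, cp k = col (P k))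
    {l0 : ℤ} (h0 : Ed cp l0) :
    ∃ s : ℤ → ℤ, MatA N cp l0 s ∧
      (∀ k, l0 < k → k ≤ l0 + N → St cp k →
        Ret (Ou o R) w (sd o R (J (P k) - 1)) (sd o R (J (P (s k) + 1)))) ∧
      ∃ k0, l0 < k0 ∧ k0 ≤ l0 + N ∧ St cp k0 ∧ s k0 = l0 + N := by
  obtain ⟨σ, h1, h2, h3⟩ := exists_sig_ring h hn hQ hQ' Qper hJ hJ' per hcol
  obtain ⟨τ, h4, h5⟩ := h3 hN hP hP' Pper
  have ecp : cp = fun k => col (P k) := funext hcp
  have perp : ∀ k, cp (k + N) = cp k := fun k => by rw [hcp, hcp, Pper, per]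
  rw [← ecp] at h4 h5
  obtain ⟨s, h6, h7⟩ := h4.exists_mat perp h0
  have hJper : ∀ p, J (p + n) = J p + 8 * R := (rel_of_ring h hn hQ hQ' Qper hJ hJ' per hcol).Jper
  obtain ⟨k0, b1, b2, b3, b4⟩ := MatA.root_start h4 perp h0
  refine ⟨s, h6, fun k k1 k2 hk => ?_, k0, b1, b2, b3, ?_⟩
  · have hSt : St col (P k) := ((st_pull hP hP').1 (ecp ▸ hk)).1
    have h8 := h2 _ hSt
    rw [← h5 k hk] at h8
    rcases h7 k with e | e
    · rw [e]; exact h8
    · have e1 : P (s k) + n = P (τ k) := by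
        rw [← Pper, e, sub_add_cancel]
      have e2 : J (P (τ k) + 1) = J (P (s k) + 1) + 8 * R := by
        rw [← e1, show P (s k) + n + 1 = P (s k) + 1 + n by ring, hJper]
      rw [e2, sd_add] at h8
      exact h8
  · have m := (h6.maps k0 b1 b2 b3).1
    rcases h7 k0 with e | e <;> omega

/-- the sides of the outer strand of a start -/
theorem sig_sides (h : Ring o R w cs) {i j : ℤ} (hi : i % 2 = 1) (hj : j % 2 = 0)
    (hr : Ret (Ou o R) w (sd o R i) (sd o R j)) {E : Finset (ℤ × ℤ)} (hE : ∀ e ∈ E, e ∉ Ou o R) :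
    Co w (V (Pool.Agent.H68.G.pt o R (i + 1))) (V (Pool.Agent.H68.G.pt o R j)) ∧
      DCo (E ∪ w) (Fc (Pool.Agent.H68.G.pt o R i)) (Fc (Pool.Agent.H68.G.pt o R (j + 1))) := by
  have h1 := Ret_sides hr hE
  have e1 := par_pt h.hR h.ho (i + 1)
  have e2 := par_pt h.hR h.ho j
  have k1 := Jn.vx_fi (jn_sd (o := o) h.hR i).symm (by omega)
  have k2 := Jn.vx_fi (jn_sd (o := o) h.hR j) (by omega)
  rw [k1.1, k1.2, k2.1, k2.2] at h1
  exact h1

end Pool.Agent.H40.W.R3
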