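import Mathlib
import Pool.Agent.H40.W.R3.RelR

set_option autoImplicit false
open Finset

/-! # The root and the ring of a square

`RetS Λ w c d` : first return after at most three steps. `turnO'`, `turnC'` : the lemmas of 68's `RingM`
with the number of steps. `root_ring` : the strand of a root far from the square never enters, or it
lies on the outer strand from a start to an end of the ring. -/

namespace Pool.Agent.H40.W.R3

open Pool.Agent.H75.Perc hiding WL CT hh
open Pool.Agent.H75.TwoArm Pool.Agent.H33.Q1 Pool.Agent.H13.W Pool.Agent.H47.W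
open Pool.Agent.H69.Q1 Pool.Agent.H75.Four Pool.Agent.H68.G
open Pool.Agent.Q1 (DCo)

/-- first return after at most three steps -/
def RetS (Λ : Set (ℤ × ℤ)) (w : Finset (ℤ × ℤ)) (c d : ℤ × ℤ) : Prop :=
  ∃ n : ℕ, n ≤ 3 ∧ (nx w)^[n] c = d ∧ lab d ∉ Λ ∧ ∀ i < n, lab ((nx w)^[i] c) ∈ Λ

section ring

variable {o : ℤ × ℤ} {R j j' : ℤ} {w : Finset (ℤ × ℤ)} {col : ℤ → Bool}

/-- (68's `turnO` with the number of steps) **open part**: the strand turns back around the face -/
lemma turnO' (hR : 0 < R) (ho : (o.1 + o.2) % 2 = 0) (hj : j % 2 = 1) (h1 : lt (tu o R j) ∈ w)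
    (h2 : lt (tu o R (j - 1)) ∈ w) : RetS (Ou o R) w (sd o R j) (sd o R (j - 1)) := by
  obtain ⟨h0, h3⟩ := jmod hR j
  have h4 : (j % (8 * R)) % 2 = j % 2 := Int.emod_emod_of_dvd _ ⟨4 * R, by ring⟩
  obtain ⟨e1, e2⟩ := jpred hR j hj
  -- two steps
  have key : lab (nx w (sd o R j)) = lt (tu o R (j - 1)) ∧ nx w (nx w (sd o R j)) = sd o R (j - 1) := by
    unfold sd tu sdq tuq at *
    rw [e1] at h2 ⊢
    set i := j % (8 * R)
    by_cases a1 : i < 2 * R
    · rw [if_pos a1] at h1 ⊢
      rw [if_pos (by omega : i - 1 < 2 * R)] at h2 ⊢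
      rw [if_pos (by omega : i - 1 < 2 * R)]
      rw [nx_a (by omega), if_pos h1]
      have e3 : lt (o.1 - R + i - 1, o.2 - R - 1) = lt (o.1 - R + (i - 1), o.2 - R - 1) := by
        congr 2; ring
      refine ⟨by rw [(vt_even (by omega)).1, e3], ?_⟩
      rw [nx_c (by omega), if_pos (by rw [e3]; exact h2)]
      congr 1 <;> ring
    · by_cases a2 : i < 4 * R
      · rw [if_neg a1, if_pos a2] at h1 ⊢
        rw [if_neg (by omega : ¬ i - 1 < 2 * R), if_pos (by omega : i - 1 < 4 * R)] at h2 ⊢
        rw [if_neg (by omega : ¬ i - 1 < 2 * R), if_pos (by omega : i - 1 < 4 * R)]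
        rw [nx_d (by omega), if_pos h1]
        have e3 : lt (o.1 + R, o.2 + i - 3 * R - 1) = lt (o.1 + R, o.2 + (i - 1) - 3 * R) := by
          congr 2; ring
        refine ⟨by rw [(hz_odd (by omega)).1, e3], ?_⟩
        rw [nx_a (by omega), if_pos (by rw [e3]; exact h2)]
        congr 1; ring
      · by_cases a3 : i < 6 * R
        · rw [if_neg a1, if_neg a2, if_pos a3] at h1 ⊢
          rw [if_neg (by omega : ¬ i - 1 < 2 * R), if_neg (by omega : ¬ i - 1 < 4 * R),
            if_pos (by omega : i - 1 < 6 * R)] at h2 ⊢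
          rw [if_neg (by omega : ¬ i - 1 < 2 * R), if_neg (by omega : ¬ i - 1 < 4 * R),
            if_pos (by omega : i - 1 < 6 * R)]
          rw [nx_b (by omega), if_pos h1]
          have e3 : lt (o.1 + 5 * R - i - 1 + 1, o.2 + R) = lt (o.1 + 5 * R - (i - 1) - 1, o.2 + R) := by
            congr 2; ring
          refine ⟨by rw [(vt_odd (by omega)).1, e3], ?_⟩
          rw [nx_d (by omega), if_pos (by rw [e3]; exact h2)]
          congr 1; ring
        · rw [if_neg a1, if_neg a2, if_neg a3] at h1 ⊢
          rw [if_neg (by omega : ¬ i - 1 < 2 * R), if_neg (by omega : ¬ i - 1 < 4 * R),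
            if_neg (by omega : ¬ i - 1 < 6 * R)] at h2 ⊢
          rw [if_neg (by omega : ¬ i - 1 < 2 * R), if_neg (by omega : ¬ i - 1 < 4 * R),
            if_neg (by omega : ¬ i - 1 < 6 * R)]
          rw [nx_c (by omega), if_pos h1]
          have e3 : lt (o.1 - R - 1, o.2 + 7 * R - i - 1 + 1) =
              lt (o.1 - R - 1, o.2 + 7 * R - (i - 1) - 1) := by
            congr 2; ring
          refine ⟨by rw [(hz_even (by omega)).1, e3], ?_⟩
          rw [nx_b (by omega), if_pos (by rw [e3]; exact h2)]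
          congr 1 <;> ring
  refine ⟨2, by norm_num, key.2, ?_, ?_⟩
  · rw [(plab_sd hR ho (by omega)).2, mem_Ou, not_not]
    exact sq_tn hR _
  · intro i hi
    rcases (show i = 0 ∨ i = 1 by omega) with rfl | rfl
    · show lab (sd o R j) ∈ _
      rw [(lab_sd hR ho hj).1, mem_Ou]
      exact nsq_tu hR _
    · show lab (nx w (sd o R j)) ∈ _
      rw [key.1, mem_Ou]
      exact nsq_tu hR _

/-- (68's `turnC` with the number of steps) **closed part**: the strand turns back around the vertex -/
lemma turnC' (hR : 0 < R) (ho : (o.1 + o.2) % 2 = 0) (hj : j % 2 = 1) (h1 : lt (tu o R j) ∉ w)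
    (h2 : lt (tu o R (j + 1)) ∉ w) (hk : ((j + 1) % (8 * R) = 0 ∨ (j + 1) % (8 * R) = 2 * R ∨
      (j + 1) % (8 * R) = 4 * R ∨ (j + 1) % (8 * R) = 6 * R) → lt (tk o R (j + 1)) ∉ w) :
    RetS (Ou o R) w (sd o R j) (sd o R (j + 1)) := by
  obtain ⟨h0, h3⟩ := jmod hR j
  have h4 : (j % (8 * R)) % 2 = j % 2 := Int.emod_emod_of_dvd _ ⟨4 * R, by ring⟩
  have hend : lab (sd o R (j + 1)) ∉ Ou o R := by
    rw [(plab_sd hR ho (by omega)).2, mem_Ou, not_not]
    exact sq_tn hR _
  have hst : lab (sd o R j) ∈ Ou o R := by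
    rw [(lab_sd hR ho hj).1, mem_Ou]
    exact nsq_tu hR _
  have hu1 : lt (tu o R (j + 1)) ∈ Ou o R := by rw [mem_Ou]; exact nsq_tu hR _
  have two : lab (nx w (sd o R j)) = lt (tu o R (j + 1)) → nx w (nx w (sd o R j)) = sd o R (j + 1) →
      RetS (Ou o R) w (sd o R j) (sd o R (j + 1)) := by
    intro k1 k2
    refine ⟨2, by norm_num, k2, hend, fun i hi => ?_⟩
    rcases (show i = 0 ∨ i = 1 by omega) with rfl | rfl
    · exact hst
    · show lab (nx w (sd o R j)) ∈ _
      rw [k1]; exact hu1
  have three : lab (nx w (sd o R j)) ∈ Ou o R → lab (nx w (nx w (sd o R j))) = lt (tu o R (j + 1)) →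
      nx w (nx w (nx w (sd o R j))) = sd o R (j + 1) →
      RetS (Ou o R) w (sd o R j) (sd o R (j + 1)) := by
    intro k0 k1 k2
    refine ⟨3, le_rfl, k2, hend, fun i hi => ?_⟩
    rcases (show i = 0 ∨ i = 1 ∨ i = 2 by omega) with rfl | rfl | rfl
    · exact hst
    · exact k0
    · show lab (nx w (nx w (sd o R j))) ∈ _
      rw [k1]; exact hu1
  unfold sd tu sdq tuq tk at *
  rcases jsucc hR j with ⟨e1, e2⟩ | ⟨e1, e2⟩
  · rw [e1] at h2 hk two three ⊢
    set i := j % (8 * R)
    by_cases a1 : i < 2 * R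
    · rw [if_pos a1] at h1
      rw [if_pos a1] at two three ⊢
      by_cases b1 : i + 1 < 2 * R
      · rw [if_pos b1] at h2
        rw [if_pos b1, if_pos b1] at two
        rw [if_pos b1]
        have e3 : lt (o.1 - R + i + 1, o.2 - R - 1) = lt (o.1 - R + (i + 1), o.2 - R - 1) := by
          congr 2; ring
        apply two
        · rw [nx_a (by omega), if_neg h1, (vt_odd (by omega)).1, e3]
        · rw [nx_a (by omega), if_neg h1, nx_d (by omega), if_neg (by rw [e3]; exact h2)]
          congr 1 <;> ring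
      · have b2 : i + 1 = 2 * R := by omega
        have hk' := hk (Or.inr (Or.inl b2))
        rw [if_neg (by omega : ¬ i + 1 = 0), if_pos b2] at hk'
        rw [if_neg b1, if_pos (by omega : i + 1 < 4 * R)] at h2
        rw [if_neg b1, if_pos (by omega : i + 1 < 4 * R), if_neg b1,
          if_pos (by omega : i + 1 < 4 * R)] at three
        rw [if_neg b1, if_pos (by omega : i + 1 < 4 * R)]
        have e3 : lt (o.1 - R + i + 1, o.2 - R - 1) = lt (o.1 + R, o.2 - R - 1) := by
          congr 2; omega
        have e4 : lt (o.1 - R + i + 1, o.2 - R - 1 + 1) = lt (o.1 + R, o.2 + (i + 1) - 3 * R) := by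
          congr 2 <;> omega
        apply three
        · rw [nx_a (by omega), if_neg h1, (vt_odd (by omega)).1, e3, mem_Ou]
          unfold Sq; simp only; omega
        · rw [nx_a (by omega), if_neg h1, nx_d (by omega), if_neg (by rw [e3]; exact hk'),
            (hz_even (by omega)).1, e4]
        · rw [nx_a (by omega), if_neg h1, nx_d (by omega), if_neg (by rw [e3]; exact hk'),
            nx_b (by omega), if_neg (by rw [e4]; exact h2)]
          congr 1 <;> omega
    · by_cases a2 : i < 4 * R
      · rw [if_neg a1, if_pos a2] at h1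
        rw [if_neg a1, if_pos a2] at two three ⊢
        have c1 : ¬ i + 1 < 2 * R := by omega
        by_cases b1 : i + 1 < 4 * R
        · rw [if_neg c1, if_pos b1] at h2
          rw [if_neg c1, if_pos b1, if_neg c1, if_pos b1] at two
          rw [if_neg c1, if_pos b1]
          have e3 : lt (o.1 + R, o.2 + i - 3 * R + 1) = lt (o.1 + R, o.2 + (i + 1) - 3 * R) := by
            congr 2; ring
          apply two
          · rw [nx_d (by omega), if_neg h1, (hz_even (by omega)).1, e3]
          · rw [nx_d (by omega), if_neg h1, nx_b (by omega), if_neg (by rw [e3]; exact h2)]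
            congr 1 <;> ring
        · have b2 : i + 1 = 4 * R := by omega
          have hk' := hk (Or.inr (Or.inr (Or.inl b2)))
          rw [if_neg (by omega : ¬ i + 1 = 0), if_neg (by omega : ¬ i + 1 = 2 * R), if_pos b2] at hk'
          rw [if_neg c1, if_neg b1, if_pos (by omega : i + 1 < 6 * R)] at h2
          rw [if_neg c1, if_neg b1, if_pos (by omega : i + 1 < 6 * R), if_neg c1, if_neg b1,
            if_pos (by omega : i + 1 < 6 * R)] at three
          rw [if_neg c1, if_neg b1, if_pos (by omega : i + 1 < 6 * R)]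
          have e3 : lt (o.1 + R, o.2 + i - 3 * R + 1) = lt (o.1 + R, o.2 + R) := by
            congr 2; omega
          have e4 : lt (o.1 + R - 1, o.2 + i - 3 * R + 1) =
              lt (o.1 + 5 * R - (i + 1) - 1, o.2 + R) := by
            congr 2 <;> omega
          apply three
          · rw [nx_d (by omega), if_neg h1, (hz_even (by omega)).1, e3, mem_Ou]
            unfold Sq; simp only; omega
          · rw [nx_d (by omega), if_neg h1, nx_b (by omega), if_neg (by rw [e3]; exact hk'),
              (vt_even (by omega)).1, e4]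
          · rw [nx_d (by omega), if_neg h1, nx_b (by omega), if_neg (by rw [e3]; exact hk'),
              nx_c (by omega), if_neg (by rw [e4]; exact h2)]
            congr 1 <;> omega
      · by_cases a3 : i < 6 * R
        · rw [if_neg a1, if_neg a2, if_pos a3] at h1
          rw [if_neg a1, if_neg a2, if_pos a3] at two three ⊢
          have c1 : ¬ i + 1 < 2 * R := by omega
          have c2 : ¬ i + 1 < 4 * R := by omega
          by_cases b1 : i + 1 < 6 * R
          · rw [if_neg c1, if_neg c2, if_pos b1] at h2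
            rw [if_neg c1, if_neg c2, if_pos b1, if_neg c1, if_neg c2, if_pos b1] at two
            rw [if_neg c1, if_neg c2, if_pos b1]
            have e3 : lt (o.1 + 5 * R - i - 1 - 1, o.2 + R) =
                lt (o.1 + 5 * R - (i + 1) - 1, o.2 + R) := by
              congr 2; ring
            apply two
            · rw [nx_b (by omega), if_neg h1, (vt_even (by omega)).1, e3]
            · rw [nx_b (by omega), if_neg h1, nx_c (by omega), if_neg (by rw [e3]; exact h2)]
              congr 1 <;> ring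
          · have b2 : i + 1 = 6 * R := by omega
            have hk' := hk (Or.inr (Or.inr (Or.inr b2)))
            rw [if_neg (by omega : ¬ i + 1 = 0), if_neg (by omega : ¬ i + 1 = 2 * R),
              if_neg (by omega : ¬ i + 1 = 4 * R)] at hk'
            rw [if_neg c1, if_neg c2, if_neg b1] at h2
            rw [if_neg c1, if_neg c2, if_neg b1, if_neg c1, if_neg c2, if_neg b1] at three
            rw [if_neg c1, if_neg c2, if_neg b1]
            have e3 : lt (o.1 + 5 * R - i - 1 - 1, o.2 + R) = lt (o.1 - R - 1, o.2 + R) := by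
              congr 2; omega
            have e4 : lt (o.1 + 5 * R - i - 1 - 1, o.2 + R - 1) =
                lt (o.1 - R - 1, o.2 + 7 * R - (i + 1) - 1) := by
              congr 2 <;> omega
            apply three
            · rw [nx_b (by omega), if_neg h1, (vt_even (by omega)).1, e3, mem_Ou]
              unfold Sq; simp only; omega
            · rw [nx_b (by omega), if_neg h1, nx_c (by omega), if_neg (by rw [e3]; exact hk'),
                (hz_odd (by omega)).1, e4]
            · rw [nx_b (by omega), if_neg h1, nx_c (by omega), if_neg (by rw [e3]; exact hk'),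
                nx_a (by omega), if_neg (by rw [e4]; exact h2)]
              congr 1 <;> omega
        · rw [if_neg a1, if_neg a2, if_neg a3] at h1
          rw [if_neg a1, if_neg a2, if_neg a3] at two three ⊢
          have c1 : ¬ i + 1 < 2 * R := by omega
          have c2 : ¬ i + 1 < 4 * R := by omega
          have c3 : ¬ i + 1 < 6 * R := by omega
          rw [if_neg c1, if_neg c2, if_neg c3] at h2
          rw [if_neg c1, if_neg c2, if_neg c3, if_neg c1, if_neg c2, if_neg c3] at two
          rw [if_neg c1, if_neg c2, if_neg c3]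
          have e3 : lt (o.1 - R - 1, o.2 + 7 * R - i - 1 - 1) =
              lt (o.1 - R - 1, o.2 + 7 * R - (i + 1) - 1) := by
            congr 2; ring
          apply two
          · rw [nx_c (by omega), if_neg h1, (hz_odd (by omega)).1, e3]
          · rw [nx_c (by omega), if_neg h1, nx_a (by omega), if_neg (by rw [e3]; exact h2)]
            congr 1 <;> ring
  · rw [e1] at h2 hk two three ⊢
    rw [e2] at h1 h4 two three ⊢
    have hk' := hk (Or.inl rfl)
    rw [if_pos rfl] at hk'
    have d1 : ¬ 8 * R - 1 < 2 * R := by omega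
    have d2 : ¬ 8 * R - 1 < 4 * R := by omega
    have d3 : ¬ 8 * R - 1 < 6 * R := by omega
    have d4 : (0 : ℤ) < 2 * R := by omega
    rw [if_neg d1, if_neg d2, if_neg d3] at h1
    rw [if_pos d4] at h2
    rw [if_neg d1, if_neg d2, if_neg d3, if_pos d4, if_pos d4] at three
    rw [if_neg d1, if_neg d2, if_neg d3, if_pos d4]
    have e3 : lt (o.1 - R - 1, o.2 + 7 * R - (8 * R - 1) - 1 - 1) = lt (o.1 - R - 1, o.2 - R - 1) := by
      congr 2; omega
    have e4 : lt (o.1 - R, o.2 + 7 * R - (8 * R - 1) - 1 - 1) = lt (o.1 - R + 0, o.2 - R - 1) := by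
      congr 2 <;> omega
    apply three
    · rw [nx_c (by omega), if_neg h1, (hz_odd (by omega)).1, e3, mem_Ou]
      unfold Sq; simp only; omega
    · rw [nx_c (by omega), if_neg h1, nx_a (by omega), if_neg (by rw [e3]; exact hk'),
        show o.1 - R - 1 + 1 = o.1 - R by ring, (vt_odd (by omega)).1, e4]
    · rw [nx_c (by omega), if_neg h1, nx_a (by omega), if_neg (by rw [e3]; exact hk'),
        show o.1 - R - 1 + 1 = o.1 - R by ring, nx_d (by omega), if_neg (by rw [e4]; exact h2)]
      congr 1 <;> omega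


lemma RetS.ret {Λ : Set (ℤ × ℤ)} {c d : ℤ × ℤ} (h : RetS Λ w c d) : Ret Λ w c d := by
  obtain ⟨n, -, h1⟩ := h
  exact ⟨n, h1⟩

lemma RetS.rn_le {Λ : Set (ℤ × ℤ)} {c d : ℤ × ℤ} (h : RetS Λ w c d) : rn Λ w c ≤ 3 := by
  obtain ⟨n, h0, h1, h2, -⟩ := h
  exact (Pool.Agent.H40.W.R3.rn_le (by rw [h1]; exact h2)).trans h0

/-- an unmarked exit returns after at most three steps -/
lemma short_or_start (h : Ring o R w col) (hj : j % 2 = 1) :
    rn (Ou o R) w (sd o R j) ≤ 3 ∨ (col j = false ∧ col (j + 1) = true) := by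
  by_cases hc : col j = true
  · left
    have h1 : col (j - 1) = col j := by
      by_contra h2
      have := h.even j h2
      omega
    exact (turnO' h.hR h.ho hj ((h.side j).2 hc) ((h.side (j - 1)).2 (h1.trans hc))).rn_le
  · have hc : col j = false := by simpa using hc
    by_cases hc' : col (j + 1) = true
    · exact Or.inr ⟨hc, hc'⟩
    · left
      have hc' : col (j + 1) = false := by simpa using hc'
      refine (turnC' h.hR h.ho hj (fun k => ?_) (fun k => ?_) (fun k g => ?_)).rn_le
      · rw [h.side, hc] at k; exact absurd k (by simp)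
      · rw [h.side, hc'] at k; exact absurd k (by simp)
      · have := ((h.corner (j + 1) k).2).1 g
        rw [hc'] at this; exact absurd this (by simp)

/-- a step moves a corner by at most one in each coordinate -/
lemma nx_near (w : Finset (ℤ × ℤ)) (c : ℤ × ℤ) :
    |(nx w c).1 - c.1| ≤ 1 ∧ |(nx w c).2 - c.2| ≤ 1 := by
  unfold nx nxO nxC
  split_ifs <;> simp

lemma iter_near (w : Finset (ℤ × ℤ)) (c : ℤ × ℤ) (n : ℕ) :
    |((nx w)^[n] c).1 - c.1| ≤ n ∧ |((nx w)^[n] c).2 - c.2| ≤ n := by
  induction n with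
  | zero => simp
  | succ n ih =>
    rw [Function.iterate_succ_apply']
    have h := nx_near w ((nx w)^[n] c)
    have h1 := abs_le.1 h.1
    have h2 := abs_le.1 h.2
    have h3 := abs_le.1 ih.1
    have h4 := abs_le.1 ih.2
    push_cast
    exact ⟨abs_le.2 ⟨by omega, by omega⟩, abs_le.2 ⟨by omega, by omega⟩⟩

lemma plab_near (c : ℤ × ℤ) : |(plab c).1 - c.1| ≤ 1 ∧ |(plab c).2 - c.2| ≤ 1 := by
  unfold plab
  split_ifs <;> simp

lemma plab_odd' (c : ℤ × ℤ) : ((plab c).1 + (plab c).2) % 2 = 1 := by
  have h := lab_odd' (pv ∅ c)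
  rwa [lab_pv] at h

/-- **The root.** `c0` far from the square (`R + 5`): its strand never enters the square, or it lies on
the outer strand from a start `j` to an end `l` of the ring. -/
theorem root_ring (h : Ring o R w col) {c0 : ℤ × ℤ} (hfar : ¬ Sq o (R + 5) (tt (plab c0))) :
    (∀ n, lab ((nx w)^[n] c0) ∈ Ou o R) ∨
    ∃ j l, col (j - 1) = false ∧ col j = true ∧ col (l - 1) = true ∧ col l = false ∧
      Ret (Ou o R) w (sd o R (j - 1)) (sd o R l) ∧ Ret (Ou o R) w c0 (sd o R l) := by
  have hR := h.hR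
  have ho := h.ho
  have e0 : lt (tt (plab c0)) = plab c0 := lt_tt (plab_odd' c0)
  have h0 : plab c0 ∈ Ou o R := by
    rw [← e0, mem_Ou]
    unfold Sq at hfar ⊢
    omega
  rcases root_cases (V := w) h0 with h1 | ⟨x, m, n, hx, hmn, hm, hn, hlab⟩
  · exact Or.inl h1
  right
  obtain ⟨j, hj, rfl⟩ := exists_sd' hR hx.1 hx.2 ho
  have hret : Ret (Ou o R) w (sd o R j) (rt (Ou o R) w (sd o R j)) :=
    ⟨_, rfl, (rt_en hx).2, fun i hi => rn_lt hi⟩
  rcases short_or_start h hj with h2 | ⟨h2, h3⟩
  · -- the root would be near the square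
    exfalso
    apply hfar
    have k1 := iter_near w (sd o R j) m
    rw [hm] at k1
    have k2 := plab_near c0
    have k3 := plab_near (sd o R j)
    rw [(lab_sd hR ho hj).2] at k3
    have k4 := sq_tn (o := o) hR j
    set t := tn o R j
    set s := sd o R j
    set p := plab c0
    unfold Sq tt at *
    unfold lt at k3
    simp only at k3 k4 ⊢
    have a1 := abs_le.1 k1.1
    have a2 := abs_le.1 k1.2
    have a3 := abs_le.1 k2.1
    have a4 := abs_le.1 k2.2
    have a5 := abs_le.1 k3.1
    have a6 := abs_le.1 k3.2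
    have hm3 : (m : ℤ) ≤ 3 := by omega
    omega
  · obtain ⟨l, h4, h5, h6⟩ := h.ret_start (j := j + 1) (by rw [add_sub_cancel_right]; exact h2) h3
    refine ⟨j + 1, l, by rw [add_sub_cancel_right]; exact h2, h3, h5, h6, h4, ?_⟩
    rw [add_sub_cancel_right] at h4
    have h7 := hret.unique h4
    refine ⟨n, hn.trans h7, ?_, hlab⟩
    rw [← h7]
    exact (rt_en hx).2

/-- the same with plate numbers: the root enters at the end `q0` -/
theorem root_plate (h : Ring o R w col) {c0 : ℤ × ℤ} (hfar : ¬ Sq o (R + 5) (tt (plab c0)))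
    {Q J : ℤ → ℤ} {cp : ℤ → Bool} (hQ : ∀ j, Q j ≤ Q (j + 1)) (hQ' : ∀ j, Q (j + 1) ≤ Q j + 1)
    (hJ : ∀ p, Q (J p) = p) (hJ' : ∀ p, Q (J p - 1) = p - 1) (hcol : ∀ j, col j = cp (Q j)) :
    (∀ n, lab ((nx w)^[n] c0) ∈ Ou o R) ∨
    ∃ q0, Ed cp q0 ∧ Ret (Ou o R) w c0 (sd o R (J (q0 + 1))) := by
  rcases root_ring h hfar with h1 | ⟨j, l, -, -, h3, h4, -, h6⟩
  · exact Or.inl h1
  · right
    have k1 := hQ (l - 1)
    have k2 := hQ' (l - 1)
    rw [sub_add_cancel] at k1 k2
    have k3 : Q (l - 1) ≠ Q l := fun e => by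
      rw [hcol, e, ← hcol, h4] at h3
      exact absurd h3 (by simp)
    have k4 : Q (l - 1) = Q l - 1 := by omega
    have k5 : l = J (Q l) := first_unique hQ rfl k4 (hJ _) (hJ' _)
    refine ⟨Q (l - 1), ⟨by rw [← hcol]; exact h3, ?_⟩, ?_⟩
    · rw [k4, sub_add_cancel, ← hcol]; exact h4
    · rw [k4, sub_add_cancel, ← k5]; exact h6

end ring

end Pool.Agent.H40.W.R3
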