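import Mathlib
import Pool.Agent.H68.G.RingP
import Pool.Agent.H40.W.R3.Root

set_option autoImplicit false
open Finset

/-! # The matching of the plates of 65's ring

`exists_mat_rg` : for every world `w` in which the ring of the square has the colours `s` of the plates of
`D : RG` (`Ring o (D.Rr n) w (colr D n s)`, 68's `ring_of`), and for positions `k` with the plate numbers `P k`: the outer strands give a matching `MatA` cut behind
the end `l0`. `root_rg` : the root. -/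

namespace Pool.Agent.H40.W.R3

open Pool.Agent.H75.Perc hiding WL CT hh
open Pool.Agent.H75.TwoArm Pool.Agent.H33.Q1 Pool.Agent.H13.W Pool.Agent.H47.W
open Pool.Agent.H69.Q1 Pool.Agent.H75.Four Pool.Agent.H68.G
open Pool.Agent.H65.G (RG)
open Pool.Agent.Q1 (DCo)

variable {D : RG} {n : ℤ} {o : ℤ × ℤ} {s : ℕ × ℤ → Bool} {w : Finset (ℤ × ℤ)}

/-- plate number of a side -/
noncomputable def Qn (D : RG) (n : ℤ) (j : ℤ) : ℤ := by
  classical
  exact if h : ∃ p, D.J n p ≤ j ∧ j < D.J n (p + 1) then h.choose else 0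

lemma Qn_spec (hn : 8 ≤ n) (j : ℤ) : D.J n (Qn D n j) ≤ j ∧ j < D.J n (Qn D n j + 1) := by
  have h := exists_J (D := D) hn j
  unfold Qn
  rw [dif_pos h]
  exact h.choose_spec

lemma Qn_eq (hn : 8 ≤ n) {j p : ℤ} (h1 : D.J n p ≤ j) (h2 : j < D.J n (p + 1)) : Qn D n j = p :=
  J_uniq hn (Qn_spec hn j).1 (Qn_spec hn j).2 h1 h2

/-- the properties of `Qn` -/
lemma Qn_props (hn : 8 ≤ n) : (∀ j, Qn D n j ≤ Qn D n (j + 1)) ∧ (∀ j, Qn D n (j + 1) ≤ Qn D n j + 1) ∧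
    (∀ j, Qn D n (j + 8 * D.Rr n) = Qn D n j + 8 * D.n2) ∧ (∀ p, Qn D n (D.J n p) = p) ∧
    (∀ p, Qn D n (D.J n p - 1) = p - 1) ∧ (∀ j, colr D n s j = cp D s (Qn D n j)) := by
  have hJ : ∀ p, Qn D n (D.J n p) = p := fun p => Qn_eq hn le_rfl (J_lt hn p)
  refine ⟨fun j => ?_, fun j => ?_, fun j => ?_, hJ, fun p => ?_, fun j => ?_⟩
  · obtain ⟨h1, h2⟩ := Qn_spec (D := D) hn j
    by_cases h3 : j + 1 < D.J n (Qn D n j + 1)
    · rw [Qn_eq (p := Qn D n j) hn (by omega) h3]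
    · have h4 : j + 1 = D.J n (Qn D n j + 1) := by omega
      rw [h4, hJ]
      omega
  · obtain ⟨h1, h2⟩ := Qn_spec (D := D) hn j
    by_cases h3 : j + 1 < D.J n (Qn D n j + 1)
    · rw [Qn_eq (p := Qn D n j) hn (by omega) h3]
      omega
    · have h4 : j + 1 = D.J n (Qn D n j + 1) := by omega
      rw [h4, hJ]
  · obtain ⟨h1, h2⟩ := Qn_spec (D := D) hn j
    refine Qn_eq hn ?_ ?_
    · rw [J_add]; omega
    · rw [show Qn D n j + 8 * (D.n2 : ℤ) + 1 = Qn D n j + 1 + 8 * D.n2 by ring, J_add]; omega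
  · refine Qn_eq hn ?_ ?_
    · have := J_lt (D := D) hn (p - 1)
      rw [sub_add_cancel] at this
      omega
    · rw [sub_add_cancel]
      omega
  · obtain ⟨h1, h2⟩ := Qn_spec (D := D) hn j
    exact colr_eq hn h1 h2

/-- **The matching of the positions in the actual world.** `P k` : plate number of the position `k`. -/
theorem exists_mat_rg (hn : 8 ≤ n) (hr : Ring o (D.Rr n) w (colr D n s))
    {N : ℤ} {P : ℤ → ℤ} {cc : ℤ → Bool} (hN : 0 < N) (hP : ∀ k, P k ≤ P (k + 1))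
    (hP' : ∀ k, P (k + 1) ≤ P k + 1) (Pper : ∀ k, P (k + N) = P k + 8 * D.n2)
    (hcc : ∀ k, cc k = cp D s (P k)) {l0 : ℤ} (h0 : Ed cc l0) :
    ∃ s' : ℤ → ℤ, MatA N cc l0 s' ∧
      (∀ k, l0 < k → k ≤ l0 + N → Pool.Agent.H40.W.R3.St cc k →
        Ret (Ou o (D.Rr n)) w (xs D n o (P k)) (ye D n o (P (s' k)))) ∧
      ∃ k0, l0 < k0 ∧ k0 ≤ l0 + N ∧ Pool.Agent.H40.W.R3.St cc k0 ∧ s' k0 = l0 + N := by
  obtain ⟨h1, h2, h3, h4, h5, h6⟩ := Qn_props (D := D) (s := s) hn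
  have hn0 : (0 : ℤ) < 8 * D.n2 := by have := D.n2Z; omega
  exact exists_mat_ring hr hn0 h1 h2 h3 h4 h5 (fun p => cp_add) h6 hN hP hP' Pper hcc h0

/-- **The root in the actual world.** -/
theorem root_rg (hn : 8 ≤ n) (hr : Ring o (D.Rr n) w (colr D n s)) {c0 : ℤ × ℤ}
    (hfar : ¬ Sq o (D.Rr n + 5) (tt (plab c0))) :
    (∀ i, lab ((nx w)^[i] c0) ∈ Ou o (D.Rr n)) ∨
    ∃ q0, Ed (cp D s) q0 ∧ Ret (Ou o (D.Rr n)) w c0 (ye D n o q0) := by
  obtain ⟨h1, h2, h3, h4, h5, h6⟩ := Qn_props (D := D) (s := s) hn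
  exact root_plate hr hfar h1 h2 h4 h5 h6

/-- a position `l0` of the plate `q0` which is an end -/
theorem exists_pos {N : ℤ} {P : ℤ → ℤ} {cc : ℤ → Bool} (hN : 0 < N) (hP : ∀ k, P k ≤ P (k + 1))
    (hP' : ∀ k, P (k + 1) ≤ P k + 1) (Pper : ∀ k, P (k + N) = P k + 8 * D.n2)
    (hcc : ∀ k, cc k = cp D s (P k)) {q0 : ℤ} (h0 : Ed (cp D s) q0) : ∃ l0, Ed cc l0 ∧ P l0 = q0 := by
  have hn0 : (0 : ℤ) < 8 * D.n2 := by have := D.n2Z; omega
  obtain ⟨k, h1, h2⟩ := exists_first hn0 hN hP hP' Pper (q0 + 1)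
  rw [add_sub_cancel_right] at h2
  have ecc : cc = fun k => cp D s (P k) := funext hcc
  refine ⟨k - 1, ?_, h2⟩
  rw [ecc]
  exact (ed_pull hP hP').2 ⟨by rw [h2]; exact h0, by rw [sub_add_cancel, h1, h2]⟩

/-- **The actual world as a whole**: matching, outer strands, root. Either the strand of the root never
enters the square, or everything is cut behind the end at which it enters. -/
theorem actual_rg (hn : 8 ≤ n) (hr : Ring o (D.Rr n) w (colr D n s))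
    {N : ℤ} {P : ℤ → ℤ} {cc : ℤ → Bool} (hN : 0 < N) (hP : ∀ k, P k ≤ P (k + 1))
    (hP' : ∀ k, P (k + 1) ≤ P k + 1) (Pper : ∀ k, P (k + N) = P k + 8 * D.n2)
    (hcc : ∀ k, cc k = cp D s (P k)) {c0 : ℤ × ℤ} (hfar : ¬ Sq o (D.Rr n + 5) (tt (plab c0))) :
    (∀ i, lab ((nx w)^[i] c0) ∈ Ou o (D.Rr n)) ∨
    ∃ (l0 : ℤ) (s' : ℤ → ℤ), MatA N cc l0 s' ∧
      (∀ k, l0 < k → k ≤ l0 + N → Pool.Agent.H40.W.R3.St cc k →
        Ret (Ou o (D.Rr n)) w (xs D n o (P k)) (ye D n o (P (s' k)))) ∧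
      Ret (Ou o (D.Rr n)) w c0 (ye D n o (P l0)) := by
  rcases root_rg hn hr hfar with h | ⟨q0, h1, h2⟩
  · exact Or.inl h
  · right
    obtain ⟨l0, h3, h4⟩ := exists_pos hN hP hP' Pper hcc h1
    obtain ⟨s', h5, h6, -⟩ := exists_mat_rg hn hr hN hP hP' Pper hcc h3
    exact ⟨l0, s', h5, h6, by rw [h4]; exact h2⟩

end Pool.Agent.H40.W.R3
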