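import Mathlib
import Pool.Agent.H40.W.R3.RgMat
import Pool.Agent.H59.J.Wall
import Pool.Agent.H65.G.PlConn

set_option autoImplicit false
open Finset

/-! # From the room to the ring of the square

`xs_pts`, `ys_pts` : the sides of 59's exit `xs q i` and entrance `ys q i` at a convex corner are corners of
its two outer tiles. `EN_in` : the room lies inside the square. -/

namespace Pool.Agent.H40.W.R3

open Pool.Agent.H75.Perc hiding WL CT hh ph cc EE Cn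
open Pool.Agent.H75.TwoArm Pool.Agent.H33.Q1 Pool.Agent.H47.W
open Pool.Agent.H69.Q1 hiding four
open Pool.Agent.H75.Four
open Pool.Agent.H68.G (V Fc Sq Ou mem_Ou Ret Ring cl colr cp)
open Pool.Agent.H65.G (RG Cn)
open Pool.Agent.H74.Win (InP EN mem_EN)
open Pool.Agent.H59.J (tl nb xs ys JJ sd_even sd_odd four PosC)
open Pool.Agent.H13.R45 (gp)
open Pool.Agent.Q1 (DCo)

variable {q : ℤ × ℤ} {i : ℤ}

lemma gp_even {q : ℤ × ℤ} (h : (q.1 + q.2) % 2 = 0) : gp q = V q := by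
  unfold gp V
  refine Prod.ext ?_ ?_ <;> simp only <;> omega

lemma gp_odd {q : ℤ × ℤ} : gp q = Fc q := rfl

/-- `q` is a corner of the tiles round `q` -/
lemma cn_tl (q : ℤ × ℤ) (j : ℤ) : Cn (tl q j) q := by
  unfold Cn tl
  split_ifs <;> simp

/-- `nb q j` is a corner of the tiles `j`, `j + 1` -/
lemma cn_nb (q : ℤ × ℤ) (j : ℤ) : Cn (tl q j) (nb q j) ∧ Cn (tl q (j + 1)) (nb q j) := by
  unfold Cn
  rcases four j with ⟨h, h1, -⟩ | ⟨h, h1, -⟩ | ⟨h, h1, -⟩ | ⟨h, h1, -⟩ <;> simp [tl, nb, h, h1]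

lemma nb_par (q : ℤ × ℤ) (j : ℤ) : ((nb q j).1 + (nb q j).2) % 2 = (q.1 + q.2 + 1) % 2 := by
  unfold nb
  split_ifs <;> simp only <;> omega

lemma tl_m1 (q : ℤ × ℤ) (i : ℤ) : tl q (i - 1) = tl q (i + 3) := by
  have := Pool.Agent.H59.J.tl_add4 q (i - 1)
  rw [show i - 1 + 4 = i + 3 by ring] at this
  exact this.symm

/-- **the exit at a convex corner** -/
theorem xs_pts (q : ℤ × ℤ) (i : ℤ) : ∃ a b, Cn (tl q (i + 3)) a ∧ (a.1 + a.2) % 2 = 0 ∧
    Cn (tl q (i + 1)) b ∧ (b.1 + b.2) % 2 = 1 ∧ vx (xs q i) = V a ∧ fi (xs q i) = Fc b := by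
  unfold xs
  by_cases h : (q.1 + q.2) % 2 = 0
  · rw [if_pos h]
    obtain ⟨-, -, h3, h4⟩ := sd_even h i
    exact ⟨q, nb q i, cn_tl _ _, h, (cn_nb q i).2, by rw [nb_par]; omega, by rw [h3, gp_even h], h4⟩
  · rw [if_neg h]
    obtain ⟨-, -, h3, h4⟩ := sd_odd (q := q) (by omega) (i - 1)
    refine ⟨nb q (i - 1), q, ?_, by rw [nb_par]; omega, cn_tl _ _, by omega, ?_, h3⟩
    · rw [← tl_m1]; exact (cn_nb q (i - 1)).1
    · rw [h4, gp_even (by rw [nb_par]; omega)]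

/-- **the entrance at a convex corner** -/
theorem ys_pts (q : ℤ × ℤ) (i : ℤ) : ∃ a b, Cn (tl q (i + 1)) a ∧ (a.1 + a.2) % 2 = 0 ∧
    Cn (tl q (i + 3)) b ∧ (b.1 + b.2) % 2 = 1 ∧ vx (ys q i) = V a ∧ fi (ys q i) = Fc b := by
  unfold ys
  by_cases h : (q.1 + q.2) % 2 = 0
  · rw [if_pos h]
    obtain ⟨-, -, h3, h4⟩ := sd_even h (i - 1)
    refine ⟨q, nb q (i - 1), cn_tl _ _, h, ?_, by rw [nb_par]; omega, by rw [h3, gp_even h], h4⟩
    rw [← tl_m1]; exact (cn_nb q (i - 1)).1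
  · rw [if_neg h]
    obtain ⟨-, -, h3, h4⟩ := sd_odd (q := q) (by omega) i
    refine ⟨nb q i, q, (cn_nb q i).2, by rw [nb_par]; omega, cn_tl _ _, by omega, ?_, h3⟩
    rw [h4, gp_even (by rw [nb_par]; omega)]

/-- **the room lies inside the square** -/
theorem EN_in {D : RG} {s : ℕ × ℤ → Bool} {n : ℤ} (h2 : 2 ≤ n) (he : n % 2 = 0) (hn : 8 ≤ n) :
    ∀ e ∈ EN ((D.cw s).win n h2 he) false, e ∉ Ou (0, n * (D.N - D.τ)) (D.Rr n) := by
  intro e hx
  obtain ⟨x, y, rfl⟩ := Pool.Agent.H74.R45.exists_lt (Pool.Agent.H74.Win.odd_TB hx)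
  rw [mem_EN] at hx
  rw [mem_Ou, not_not]
  obtain ⟨⟨h0, h1⟩, h3⟩ := (D.zone_iff s h2 he).1 hx
  have hτ := D.τZ
  have hN := D.NZ
  have hM := D.MZ
  have hth := D.thinZ
  have hn2 := D.n2Z
  have hNM := D.NM
  have hY0 : 0 ≤ y / n := Int.ediv_nonneg h0 (by omega)
  have hY1 : y / n < D.HR := by
    rw [Int.ediv_lt_iff_lt_mul (by omega), mul_comm]; exact h1
  have b1 := D.AL_bounds hY0 hY1
  have b2 := D.AL_bounds (Y := D.HR - 1 - y / n) (by omega) (by omega)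
  have hnx := Int.mul_ediv_add_emod x n
  have hx0 := Int.emod_nonneg x (show n ≠ 0 by omega)
  have hx1 := Int.emod_lt_of_pos x (show 0 < n by omega)
  have t1 : n * 1 ≤ n * D.τ := mul_le_mul_of_nonneg_left (by omega) (by omega)
  have key : ∀ X : ℤ, -(D.N : ℤ) + D.τ ≤ X → n * (-(D.N : ℤ) + D.τ) ≤ n * X := fun X h =>
    mul_le_mul_of_nonneg_left h (by omega)
  have key' : ∀ X : ℤ, X ≤ (D.N : ℤ) - D.τ → n * X ≤ n * ((D.N : ℤ) - D.τ) := fun X h =>
    mul_le_mul_of_nonneg_left h (by omega)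
  have e1 : n * (-(D.N : ℤ) + D.τ) = -(n * D.N) + n * D.τ := by ring
  have e2 : n * ((D.N : ℤ) - D.τ) = n * D.N - n * D.τ := by ring
  have e3 : n * D.HR = 2 * (n * D.N) - 2 * (n * D.τ) := by unfold RG.HR; ring
  unfold RG.AR at h3
  unfold Sq RG.Rr
  simp only
  rw [e1] at key
  rw [e2] at key' ⊢
  rw [e3] at h1
  have hx : -(n * D.N) + n * D.τ - 1 ≤ x ∧ x ≤ n * D.N - n * D.τ := by
    rcases h3 with ⟨c1, c2⟩ | ⟨-, c⟩ | ⟨-, c⟩
    · have d1 := key (x / n) (by omega)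
      have d2 := key' (x / n + 1) (by omega)
      rw [mul_add, mul_one] at d2
      omega
    · have d1 := key _ b1.1
      have d2 := key' (D.AL (y / n)) (by omega)
      omega
    · have d1 := key (D.AR (y / n)) (by unfold RG.AR; omega)
      have d2 := key' (D.AR (y / n)) (by unfold RG.AR; omega)
      omega
  omega

end Pool.Agent.H40.W.R3
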