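import Mathlib
import Pool.Agent.H40.W.R3.Arc0

set_option autoImplicit false
open Finset

/-! # The arcs of the actual world, abstract form

`Plates` : the solid plates join their corners. `start_join`, `end_join` : the marks of the room are joined
through the plates with the marks of the square. `arcs_core` : the whole statement for positions with plate
numbers `P`. -/

namespace Pool.Agent.H40.W.R3

open Pool.Agent.H75.Perc hiding WL CT hh ph cc EE Cn
open Pool.Agent.H75.TwoArm Pool.Agent.H33.Q1 Pool.Agent.H47.W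
open Pool.Agent.H69.Q1 hiding four
open Pool.Agent.H75.Four
open Pool.Agent.H68.G (V Fc Sq Ou mem_Ou Ret Ring cl colr cp pt tu jn_sd par_pt J_lt rg_tu vx_xs vx_ye)
open Pool.Agent.H65.G (RG Cn)
open Pool.Agent.H59.J (tl nb xs ys JJ)
open Pool.Agent.Q1 (DCo)

/-- **The solid plates join their corners** (tiles of `E` excluded). -/
structure Plates (D : RG) (n : ℤ) (o : ℤ × ℤ) (s : ℕ × ℤ → Bool) (E W : Finset (ℤ × ℤ)) : Prop where
  co : ∀ q t t' a a', s q = true → D.rg (cl n o t) = some q → D.rg (cl n o t') = some q → lt t ∉ E →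
    lt t' ∉ E → Cn t a → Cn t' a' → (a.1 + a.2) % 2 = 0 → (a'.1 + a'.2) % 2 = 0 → Co W (V a) (V a')
  dco : ∀ q t t' a a', s q = false → D.rg (cl n o t) = some q → D.rg (cl n o t') = some q → lt t ∉ E →
    lt t' ∉ E → Cn t a → Cn t' a' → (a.1 + a.2) % 2 = 1 → (a'.1 + a'.2) % 2 = 1 →
    DCo (E ∪ W) (Fc a) (Fc a')

variable {D : RG} {n : ℤ} {o : ℤ × ℤ} {s : ℕ × ℤ → Bool} {E W : Finset (ℤ × ℤ)}

/-- the ends of a side of the walk are corners of its outer tile -/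
lemma cn_tu {R : ℤ} (hR : 0 < R) (j : ℤ) : Cn (tu o R j) (pt o R j) ∧ Cn (tu o R j) (pt o R (j + 1)) := by
  obtain ⟨h0, h1⟩ := Pool.Agent.H68.G.jmod hR j
  unfold Cn pt tu
  rcases Pool.Agent.H68.G.jsucc hR j with ⟨e1, e2⟩ | ⟨e1, e2⟩
  · rw [e1]
    set i := j % (8 * R)
    unfold Pool.Agent.H68.G.ptq Pool.Agent.H68.G.tuq
    constructor
    · split_ifs <;> dsimp only <;> omega
    · split_ifs <;> dsimp only <;> omega
  · rw [e1, e2]
    unfold Pool.Agent.H68.G.ptq Pool.Agent.H68.G.tuq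
    constructor
    · split_ifs <;> dsimp only <;> omega
    · split_ifs <;> dsimp only <;> omega

/-- the outer tiles of the square are not in `E` -/
lemma tu_notMem {R : ℤ} (hR : 0 < R) (hE : ∀ e ∈ E, e ∉ Ou o R) (j : ℤ) : lt (tu o R j) ∉ E := by
  intro h
  refine hE _ h ?_
  rw [mem_Ou]
  exact Pool.Agent.H68.G.nsq_tu hR j

/-- **From a start of the room to the start of the square.** `p` : number of the open plate. -/
theorem start_join (hn : 8 ≤ n) (hn2 : n % 2 = 0) (ho : (o.1 + o.2) % 2 = 0)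
    (hE : ∀ e ∈ E, e ∉ Ou o (D.Rr n)) (hP : Plates D n o s E W) {q : ℤ × ℤ} {i p : ℤ}
    (h1 : lt (tl q (i + 1)) ∉ E) (h3 : lt (tl q (i + 3)) ∉ E)
    (g1 : D.rg (cl n o (tl q (i + 1))) = some (D.plt (p - 1)))
    (g3 : D.rg (cl n o (tl q (i + 3))) = some (D.plt p)) (hp : Pool.Agent.H40.W.R3.St (cp D s) p) :
    JJ E W (xs q i) (Pool.Agent.H68.G.xs D n o p) := by
  have hR := Pool.Agent.H68.G.Rr_pos (D := D) hn
  obtain ⟨a, b, ha, ha', hb, hb', ea, eb⟩ := xs_pts q i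
  obtain ⟨v1, v2⟩ := vx_xs (D := D) (p := p) hn ho hn2
  have l1 := J_lt (D := D) hn (p - 1)
  rw [sub_add_cancel] at l1
  have l2 := J_lt (D := D) hn p
  have je : D.J n p % 2 = 0 := Pool.Agent.H68.G.J_even hn2 p
  have q1 := par_pt (o := o) hR ho (D.J n p)
  have q2 := par_pt (o := o) hR ho (D.J n p - 1)
  have c2 := (cn_tu (o := o) hR (D.J n p - 1)).1
  refine ⟨?_, ?_⟩
  · rw [ea, v1]
    exact hP.co (D.plt p) _ (tu o (D.Rr n) (D.J n p)) _ _ hp.2 g3 (rg_tu hn le_rfl l2) h3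
      (tu_notMem hR hE _) ha (cn_tu hR _).1 ha' (by omega)
  · rw [eb, v2]
    exact hP.dco (D.plt (p - 1)) _ (tu o (D.Rr n) (D.J n p - 1)) _ _ hp.1 g1
      (rg_tu hn (by omega) (by rw [sub_add_cancel]; omega)) h1 (tu_notMem hR hE _) hb c2 hb' (by omega)

/-- **From the end of the square to an end of the room.** `p` : number of the open plate. -/
theorem end_join (hn : 8 ≤ n) (hn2 : n % 2 = 0) (ho : (o.1 + o.2) % 2 = 0)
    (hE : ∀ e ∈ E, e ∉ Ou o (D.Rr n)) (hP : Plates D n o s E W) {q : ℤ × ℤ} {i p : ℤ}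
    (h1 : lt (tl q (i + 1)) ∉ E) (h3 : lt (tl q (i + 3)) ∉ E)
    (g1 : D.rg (cl n o (tl q (i + 1))) = some (D.plt p))
    (g3 : D.rg (cl n o (tl q (i + 3))) = some (D.plt (p + 1))) (hp : Ed (cp D s) p) :
    JJ E W (Pool.Agent.H68.G.ye D n o p) (ys q i) := by
  have hR := Pool.Agent.H68.G.Rr_pos (D := D) hn
  obtain ⟨a, b, ha, ha', hb, hb', ea, eb⟩ := ys_pts q i
  obtain ⟨v1, v2⟩ := vx_ye (D := D) (q := p) hn ho hn2
  have l1 := J_lt (D := D) hn p
  have l2 := J_lt (D := D) hn (p + 1)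
  have je : D.J n (p + 1) % 2 = 0 := Pool.Agent.H68.G.J_even hn2 (p + 1)
  have q1 := par_pt (o := o) hR ho (D.J n (p + 1))
  have q2 := par_pt (o := o) hR ho (D.J n (p + 1) + 1)
  have c1 := (cn_tu (o := o) hR (D.J n (p + 1) - 1)).2
  rw [sub_add_cancel] at c1
  refine ⟨?_, ?_⟩
  · rw [ea, v1]
    exact hP.co (D.plt p) (tu o (D.Rr n) (D.J n (p + 1) - 1)) _ _ _ hp.1 (rg_tu hn (by omega) (by omega)) g1
      (tu_notMem hR hE _) h1 c1 ha (by omega) ha'
  · rw [eb, v2]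
    exact hP.dco (D.plt (p + 1)) (tu o (D.Rr n) (D.J n (p + 1))) _ _ _ hp.2 (rg_tu hn le_rfl l2) g3
      (tu_notMem hR hE _) h3 (cn_tu hR _).2 hb (by omega) hb'

end Pool.Agent.H40.W.R3
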