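import Mathlib
import Pool.Agent.H40.W.R3.Arc1
import Pool.Agent.H65.G.PlTile

set_option autoImplicit false
open Finset

/-! # The arcs of the actual world

`r3b_core` : the exits of the room at the starts are joined, outside of the room, with the entrances at the
ends given by a noncrossing matching `MatA`, cut behind the end at which the root enters; or the strand of the
root never comes near the room and all increments in the room vanish. -/

namespace Pool.Agent.H40.W.R3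

open Pool.Agent.H75.Perc hiding WL CT hh ph cc EE Cn
open Pool.Agent.H75.TwoArm Pool.Agent.H33.Q1 Pool.Agent.H47.W
open Pool.Agent.H69.Q1 hiding four
open Pool.Agent.H75.Four
open Pool.Agent.H68.G (V Fc Sq Ou mem_Ou Ret Ring cl colr cp pt tu)
open Pool.Agent.H65.G (RG Cn)
open Pool.Agent.H74.Win (InP EN mem_EN)
open Pool.Agent.H59.J (tl nb xs ys JJ PosC tl_mod)
open Pool.Agent.H13.Sp (nP colp)
open Pool.Agent.Q1 (DCo Env)
open Pool.Agent.Q1.M6c (PlaneEnv)

variable {D : RG} {n : ℤ} {s : ℕ × ℤ → Bool} {W : Finset (ℤ × ℤ)}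

/-- 59's corners are 65's -/
lemma posC_tp (h2 : 2 ≤ n) (he : n % 2 = 0) {q : ℤ × ℤ} {i k : ℤ}
    (h : PosC ((D.cw s).win n h2 he) q i k) :
    D.rg (cl n (D.ow n) (tl q (i + 1))) = some (D.plt (D.PP n (k - 1))) ∧
      D.rg (cl n (D.ow n) (tl q (i + 3))) = some (D.plt (D.PP n k)) := by
  have h' : RG.PosR ((D.cw s).win n h2 he) q (i % 4) k := by
    rcases h with ⟨z, a1, a2, a3, a4, a5, a6⟩ | ⟨z, a1, a2, a3, a4, a5, a6⟩ |
      ⟨z, a1, a2, a3, a4, a5, a6⟩ | ⟨z, a1, a2, a3, a4, a5, a6⟩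
    · exact Or.inl ⟨z, a1, a2, a3, a4, a5, a6⟩
    · exact Or.inr (Or.inl ⟨z, a1, a2, a3, a4, a5, a6⟩)
    · exact Or.inr (Or.inr (Or.inl ⟨z, a1, a2, a3, a4, a5, a6⟩))
    · exact Or.inr (Or.inr (Or.inr ⟨z, a1, a2, a3, a4, a5, a6⟩))
  have h1 := D.tile_pos s h2 he h'
  have e1 : tl q (i + 1) = tl q (i % 4 + 1) := tl_mod (by omega)
  have e3 : tl q (i + 3) = tl q (i % 4 + 3) := tl_mod (by omega)
  rw [e1, e3]
  exact h1

/-- positions which are equal mod `nP` have the same plates -/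
lemma plt_PP_mod (hn : 0 < n) {k k1 : ℤ}
    (h : k1 % (2 * (n * D.HR) + 4) = k % (2 * (n * D.HR) + 4)) (a : ℤ) :
    D.plt (D.PP n (k1 + a)) = D.plt (D.PP n (k + a)) := by
  obtain ⟨z, hz⟩ : (2 * (n * D.HR) + 4) ∣ k1 - k :=
    Int.dvd_of_emod_eq_zero (Int.emod_eq_emod_iff_emod_sub_eq_zero.1 h)
  have e : k1 + a = k + a + z * (2 * (n * D.HR) + 4) := by linear_combination hz
  rw [e, per_mul (D.PP_add hn), mul_comm z (8 * (D.n2 : ℤ)), D.plt_add']

/-- **The arcs of the actual world**, the plates given by `Plates` and `Ring`. -/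
theorem r3b_core (h2 : 2 ≤ n) (he : n % 2 = 0) (hn : 8 ≤ n)
    (hPl : Plates D n (D.ow n) s (EN ((D.cw s).win n h2 he) false) W)
    (hr : Ring (D.ow n) (D.Rr n) W (colr D n s)) {Y : Env} (pY : PlaneEnv Y W)
    (eY : Y.E = EN ((D.cw s).win n h2 he) false)
    (hfar : ¬ Sq (D.ow n) (D.Rr n + 5) (tt (plab Y.c0))) :
    (∀ c, (lab c ∈ Y.E ∨ plab c ∈ Y.E) → Y.inc c = 0) ∨
    ∃ (l0 : ℤ) (sg : ℤ → ℤ), MatA (nP ((D.cw s).win n h2 he)) (colp ((D.cw s).win n h2 he)) l0 sg ∧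
      (∀ k, l0 < k → k ≤ l0 + nP ((D.cw s).win n h2 he) → St (colp ((D.cw s).win n h2 he)) k →
        ∀ q i k1 q' i' k2, PosC ((D.cw s).win n h2 he) q i k1 → PosC ((D.cw s).win n h2 he) q' i' k2 →
        k1 % nP ((D.cw s).win n h2 he) = k % nP ((D.cw s).win n h2 he) →
        k2 % nP ((D.cw s).win n h2 he) = (sg k + 1) % nP ((D.cw s).win n h2 he) →
        JJ (EN ((D.cw s).win n h2 he) false) W (xs q i) (ys q' i')) ∧
      (∀ q i k1, PosC ((D.cw s).win n h2 he) q i k1 →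
        k1 % nP ((D.cw s).win n h2 he) = (l0 + 1) % nP ((D.cw s).win n h2 he) →
        JJ (EN ((D.cw s).win n h2 he) false) W Y.c0 (ys q i)) := by
  have hn0 : 0 < n := by omega
  have hH : 0 < n * D.HR := mul_pos hn0 D.HR_pos
  have ho := hr.ho
  have hEin := EN_in (D := D) (s := s) h2 he hn
  have hE : ∀ e ∈ EN ((D.cw s).win n h2 he) false, e ∉ Ou (D.ow n) (D.Rr n) := hEin
  have hcp : ∀ k, colp ((D.cw s).win n h2 he) k = cp D s (D.PP n k) := fun k => D.colp_PP s h2 he k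
  rw [D.nP_win]
  have hP := fun k => (D.PP_step hn0 k).1
  have hP' := fun k => (D.PP_step hn0 k).2
  have h0 : plab Y.c0 ∈ Ou (D.ow n) (D.Rr n) := by
    have e0 : lt (tt (plab Y.c0)) = plab Y.c0 := lt_tt (plab_odd' Y.c0)
    rw [← e0, mem_Ou]
    unfold Sq at hfar ⊢
    omega
  rcases actual_rg hn hr (N := 2 * (n * D.HR) + 4) (by omega) hP hP' (D.PP_add hn0) hcp hfar with
    h | ⟨l0, sg, hM, hret, hroot⟩
  · left
    intro c hc
    refine never_inc pY (by rw [eY]; exact hE) h0 h ?_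
    rw [eY] at hc
    exact hc.imp (hE _) (hE _)
  right
  refine ⟨l0, sg, hM, ?_, ?_⟩
  · intro k k0 k0' hk q i k1 q' i' k2 hq hq' e1 e2
    -- the plates
    have hSt := (st_pull (col := cp D s) hP hP' (k := k)).1 (by
      have : (fun k => cp D s (D.PP n k)) = colp ((D.cw s).win n h2 he) := (funext hcp).symm
      rw [this]; exact hk)
    have hEdm := (hM.maps k k0 k0' hk).2.2
    have hEd := (ed_pull (col := cp D s) hP hP' (k := sg k)).1 (by
      have : (fun k => cp D s (D.PP n k)) = colp ((D.cw s).win n h2 he) := (funext hcp).symm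
      rw [this]; exact hEdm)
    obtain ⟨a1, a2⟩ := posC_tp h2 he hq
    obtain ⟨b1, b2⟩ := posC_tp h2 he hq'
    obtain ⟨c0, c1, -, c3⟩ := hq.spec.1
    obtain ⟨d0, d1, -, d3⟩ := hq'.spec.1
    have f1 := plt_PP_mod (D := D) hn0 e1 (-1)
    have f2 := plt_PP_mod (D := D) hn0 e1 0
    have f3 := plt_PP_mod (D := D) hn0 e2 (-1)
    have f4 := plt_PP_mod (D := D) hn0 e2 0
    rw [← sub_eq_add_neg, ← sub_eq_add_neg] at f1 f3
    rw [add_zero, add_zero] at f2 f4
    rw [add_sub_cancel_right] at f3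
    have j1 := start_join hn he ho hE hPl c1 c3 (by rw [a1, f1, hSt.2]) (by rw [a2, f2]) hSt.1
    have j3 := end_join hn he ho hE hPl d1 d3 (by rw [b1, f3]) (by rw [b2, f4, hEd.2]) hEd.1
    have j2 := Ret_sides (hret k k0 k0' hk) hE
    exact (j1.trans j2).trans j3
  · intro q i k1 hq e1
    have hEd := (ed_pull (col := cp D s) hP hP' (k := l0)).1 (by
      have : (fun k => cp D s (D.PP n k)) = colp ((D.cw s).win n h2 he) := (funext hcp).symm
      rw [this]; exact hM.root)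
    obtain ⟨b1, b2⟩ := posC_tp h2 he hq
    obtain ⟨d0, d1, -, d3⟩ := hq.spec.1
    have f3 := plt_PP_mod (D := D) hn0 e1 (-1)
    have f4 := plt_PP_mod (D := D) hn0 e1 0
    rw [← sub_eq_add_neg, ← sub_eq_add_neg] at f3
    rw [add_zero, add_zero] at f4
    rw [add_sub_cancel_right] at f3
    have j3 := end_join hn he ho hE hPl d1 d3 (by rw [b1, f3]) (by rw [b2, f4, hEd.2]) hEd.1
    have j2 := Ret_sides hroot hE
    exact JJ.trans j2 j3

end Pool.Agent.H40.W.R3
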