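import Mathlib
import Pool.Agent.H40.W.R3.Arc1

set_option autoImplicit false
open Finset

/-! # The ring of colours when the plates are solid off `E`

`ring_V` : `Ring o (D.Rr n) W (colr D n s)` if the tiles of the plates which do not belong to `E` have the
colours of the plates; `E` is inside the square. -/

namespace Pool.Agent.H40.W.R3

open Pool.Agent.H33.Q1
open Pool.Agent.H68.G (Sq Ou mem_Ou Ring cl colr tu tk ring_of nsq_tu)
open Pool.Agent.H65.G (RG)

variable {o : ℤ × ℤ} {R : ℤ} {W W' : Finset (ℤ × ℤ)} {col : ℤ → Bool}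

lemma nsq_tk (hR : 0 < R) (j : ℤ) : ¬ Sq o R (tk o R j) := by
  unfold Sq tk
  split_ifs <;> dsimp only <;> omega

/-- only the labels outside of the square count -/
theorem ring_congr (h : Ring o R W' col) (hW : ∀ e ∈ Ou o R, (e ∈ W ↔ e ∈ W')) : Ring o R W col where
  hR := h.hR
  ho := h.ho
  per := h.per
  side j := by
    rw [hW _ (mem_Ou.2 (nsq_tu h.hR j))]
    exact h.side j
  corner j hj := by
    rw [hW _ (mem_Ou.2 (nsq_tk h.hR j))]
    exact h.corner j hj
  even := h.even

/-- **The ring of colours.** -/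
theorem ring_V {D : RG} {n : ℤ} {s : ℕ × ℤ → Bool} {E : Finset (ℤ × ℤ)} (hn : 8 ≤ n) (hn2 : n % 2 = 0)
    (ho : (o.1 + o.2) % 2 = 0) (hE : ∀ e ∈ E, e ∉ Ou o (D.Rr n))
    (hV : ∀ t q, lt t ∉ E → D.rg (cl n o t) = some q → (lt t ∈ W ↔ s q = true)) :
    Ring o (D.Rr n) W (colr D n s) := by
  classical
  set W' : Finset (ℤ × ℤ) := (W \ E) ∪ E.filter (fun e => ∃ q, D.rg (cl n o (tt e)) = some q ∧ s q = true)
    with hW'
  refine ring_congr (W' := W') (ring_of hn hn2 ho fun t q hq => ?_) fun e he => ?_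
  · by_cases ht : lt t ∈ E
    · rw [hW', mem_union, mem_sdiff, mem_filter, tt_lt]
      constructor
      · rintro (h | ⟨-, q', h1, h2⟩)
        · exact absurd ht h.2
        · rw [hq] at h1
          rw [Option.some.inj h1]
          exact h2
      · intro h
        exact Or.inr ⟨ht, q, hq, h⟩
    · rw [hW', mem_union, mem_sdiff, mem_filter, ← hV t q ht hq]
      exact ⟨fun h => h.elim (fun h => h.1) fun h => absurd h.1 ht, fun h => Or.inl ⟨h, ht⟩⟩
  · have h1 : e ∉ E := fun h => hE e h he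
    rw [hW', mem_union, mem_sdiff, mem_filter]
    exact ⟨fun h => Or.inl ⟨h, h1⟩, fun h => h.elim (fun h => h.1) fun h => absurd h.1 h1⟩

end Pool.Agent.H40.W.R3
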