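import Mathlib
import Pool.Agent.H40.W.R3.Arc
import Pool.Agent.H40.W.R3.RingV
import Pool.Agent.H59.J.Inc
import Pool.Agent.H65.G.PlDiag

set_option autoImplicit false
open Finset

/-! # The actual world in 59's form

`agr_V` : the actual world has the natural colours next to the room. `arcsAt_core` : its arcs `ArcsAt`.
`inc_actual` : the increments of the actual world vanish in the room or are those of a canonical outside
(if every matching `MatA` is realised by an outside with the property `Z`). -/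

namespace Pool.Agent.H40.W.R3

open Pool.Agent.H75.Perc hiding WL CT hh ph cc EE Cn
open Pool.Agent.H75.TwoArm Pool.Agent.H33.Q1 Pool.Agent.H47.W
open Pool.Agent.H69.Q1 hiding four
open Pool.Agent.H75.Four
open Pool.Agent.H68.G (V Fc Sq Ou mem_Ou Ret Ring cl colr cp pt tu)
open Pool.Agent.H65.G (RG Cn)
open Pool.Agent.H74.Win (InP EN mem_EN OutB WN XN)
open Pool.Agent.H59.J (tl nb xs ys JJ PosC PosM tl_mod Agr Tou Sad Cvx ncl ArcsAt exists_posC inc_of_arcs)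
open Pool.Agent.H13.Sp (nP colp)
open Pool.Agent.Q1 (DCo Env ph)
open Pool.Agent.Q1.M6c (PlaneEnv)

variable {D : RG} {n : ℤ} {s : ℕ × ℤ → Bool} {W : Finset (ℤ × ℤ)}

lemma posC_R (h2 : 2 ≤ n) (he : n % 2 = 0) {q : ℤ × ℤ} {i k : ℤ}
    (h : PosC ((D.cw s).win n h2 he) q i k) : RG.PosR ((D.cw s).win n h2 he) q (i % 4) k := by
  rcases h with ⟨z, a1, a2, a3, a4, a5, a6⟩ | ⟨z, a1, a2, a3, a4, a5, a6⟩ |
    ⟨z, a1, a2, a3, a4, a5, a6⟩ | ⟨z, a1, a2, a3, a4, a5, a6⟩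
  · exact Or.inl ⟨z, a1, a2, a3, a4, a5, a6⟩
  · exact Or.inr (Or.inl ⟨z, a1, a2, a3, a4, a5, a6⟩)
  · exact Or.inr (Or.inr (Or.inl ⟨z, a1, a2, a3, a4, a5, a6⟩))
  · exact Or.inr (Or.inr (Or.inr ⟨z, a1, a2, a3, a4, a5, a6⟩))

/-- membership of tiles in the room -/
lemma room_iff' {D0 : Pool.Agent.H46.Sp.Win} (t : ℤ × ℤ) : lt t ∈ EN D0 false ↔ InP D0 false t.1 t.2 :=
  mem_EN

/-- **The natural colours next to the room.** -/
theorem agr_V (h2 : 2 ≤ n) (he : n % 2 = 0) (hV : D.Solid s h2 he W) :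
    Agr (EN ((D.cw s).win n h2 he) false) (ncl ((D.cw s).win n h2 he)) W := by
  refine ⟨?_, ?_⟩
  · rintro t ⟨h1, e, h3, h4⟩
    refine D.agr_side s h2 he hV (fun h => h1 ((room_iff' t).2 h)) ?_
    have h5 := (room_iff' e).1 h3
    obtain ⟨x, y⟩ := t
    obtain ⟨x', y'⟩ := e
    unfold Sad at h4
    simp only at h4 h5 ⊢
    rcases h4 with ⟨rfl, h4⟩ | ⟨rfl, h4⟩
    · rcases (abs_eq (by norm_num)).1 h4 with h6 | h6
      · right; right; left
        rw [show y + 1 = y' by omega]; exact h5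
      · right; right; right
        rw [show y - 1 = y' by omega]; exact h5
    · rcases (abs_eq (by norm_num)).1 h4 with h6 | h6
      · left
        rw [show x + 1 = x' by omega]; exact h5
      · right; left
        rw [show x - 1 = x' by omega]; exact h5
  · intro q i hc _
    obtain ⟨k, hk⟩ := exists_posC hc
    obtain ⟨-, h3, -⟩ := hk.spec
    have e2 : tl q (i + 2) = tl q (i % 4 + 2) := tl_mod (by omega)
    rw [h3, e2]
    refine D.agr_diag s h2 he hV (posC_R h2 he hk) fun h => ?_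
    rw [← e2] at h
    exact hc.2.2.1 ((room_iff' _).2 h)

/-- **The arcs of the actual world in 59's form.** -/
theorem arcsAt_core (h2 : 2 ≤ n) (he : n % 2 = 0) (hn : 8 ≤ n)
    (hPl : Plates D n (D.ow n) s (EN ((D.cw s).win n h2 he) false) W)
    (hr : Ring (D.ow n) (D.Rr n) W (colr D n s)) {Y : Env} (pY : PlaneEnv Y W)
    (eY : Y.E = EN ((D.cw s).win n h2 he) false)
    (hfar : ¬ Sq (D.ow n) (D.Rr n + 5) (tt (plab Y.c0))) :
    (∀ c, (lab c ∈ Y.E ∨ plab c ∈ Y.E) → Y.inc c = 0) ∨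
    ∃ (l0 : ℤ) (sg : ℤ → ℤ), MatA (nP ((D.cw s).win n h2 he)) (colp ((D.cw s).win n h2 he)) l0 sg ∧
      ArcsAt ((D.cw s).win n h2 he) W Y.c0 l0 sg := by
  rcases r3b_core h2 he hn hPl hr pY eY hfar with h | ⟨l0, sg, hM, h1, h3⟩
  · exact Or.inl h
  · right
    refine ⟨l0, sg, hM, ⟨?_, ?_⟩⟩
    · intro k k0 k1 hk q i q' i' hq hq'
      obtain ⟨a, ha⟩ := hq
      obtain ⟨b, hb⟩ := hq'
      exact h1 k k0 k1 hk q i _ q' i' _ ha hb (Int.add_mul_emod_self_right _ _ _)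
        (Int.add_mul_emod_self_right _ _ _)
    · intro q i hq
      obtain ⟨a, ha⟩ := hq
      exact h3 q i _ ha (Int.add_mul_emod_self_right _ _ _)

/-- **The increments of the actual world.** `hO` : every matching is realised by an outside with the
property `Z` (83). -/
theorem inc_actual (h2 : 2 ≤ n) (he : n % 2 = 0) (hn : 8 ≤ n)
    (hPl : Plates D n (D.ow n) s (EN ((D.cw s).win n h2 he) false) W) (hV : D.Solid s h2 he W)
    {Z : OutB ((D.cw s).win n h2 he) → Prop}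
    (hO : ∀ (l0 : ℤ) (sg : ℤ → ℤ),
      MatA (nP ((D.cw s).win n h2 he)) (colp ((D.cw s).win n h2 he)) l0 sg →
      ∃ O : OutB ((D.cw s).win n h2 he), Z O ∧ (∀ e ∈ O.Wo, (e.1 + e.2) % 2 = 1) ∧
        ArcsAt ((D.cw s).win n h2 he) (WN O false) O.c0 l0 sg)
    {Y : Env} (pY : PlaneEnv Y W) (eY : Y.E = EN ((D.cw s).win n h2 he) false)
    (hfar : ¬ Sq (D.ow n) (D.Rr n + 5) (tt (plab Y.c0))) :
    (∀ c, (lab c ∈ Y.E ∨ plab c ∈ Y.E) → Y.inc c = 0) ∨
    ∃ O : OutB ((D.cw s).win n h2 he), Z O ∧ ∃ κ : ℤ,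
      ∀ c, (lab c ∈ Y.E ∨ plab c ∈ Y.E) → Y.inc c = ph κ * (XN O false ∅).inc c := by
  have ho : ((D.ow n).1 + (D.ow n).2) % 2 = 0 := by
    unfold RG.ow
    simp only [zero_add]
    obtain ⟨m, hm⟩ := Int.dvd_of_emod_eq_zero he
    rw [hm, mul_assoc]
    omega
  have hE : ∀ e ∈ EN ((D.cw s).win n h2 he) false, e ∉ Ou (D.ow n) (D.Rr n) := EN_in h2 he hn
  have hr : Ring (D.ow n) (D.Rr n) W (colr D n s) :=
    ring_V hn he ho hE fun t q h1 h3 => hV t q (fun h => h1 ((room_iff' t).2 h)) h3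
  rcases arcsAt_core h2 he hn hPl hr pY eY hfar with h | ⟨l0, sg, hM, hA⟩
  · exact Or.inl h
  · right
    obtain ⟨O, hZ, hodd, hAO⟩ := hO l0 sg hM
    obtain ⟨κ, hκ⟩ := inc_of_arcs hodd (agr_V h2 he hV) pY eY hM.root
      (fun k k0 k1 hk => (hM.maps k k0 k1 hk).2.2) hAO hA
    rw [eY]
    exact ⟨O, hZ, κ, hκ⟩

end Pool.Agent.H40.W.R3
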