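import Mathlib
import Pool.Agent.H40.W.R3.Fin
import Pool.Agent.H68.G.PlOut

set_option autoImplicit false
open Finset

/-! # R3: the actual world and the canonical outsides

`r3b` : the arcs of the actual world. `inc_solid` : its increments in the room, up to a unit, are those of a
canonical outside, or they vanish. The only hypothesis besides the geometry: every noncrossing matching is
realised by an outside with the property `Z`. -/

namespace Pool.Agent.H40.W.R3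

open Pool.Agent.H75.Perc hiding WL CT hh ph cc EE Cn
open Pool.Agent.H33.Q1 Pool.Agent.H75.TwoArm
open Pool.Agent.H68.G (Sq cl)
open Pool.Agent.H65.G (RG)
open Pool.Agent.H74.Win (InP EN mem_EN OutB WN XN)
open Pool.Agent.H59.J (ArcsAt)
open Pool.Agent.H13.Sp (nP colp)
open Pool.Agent.Q1 (Env ph)
open Pool.Agent.Q1.M6c (PlaneEnv)

variable {D : RG} {n : ℤ} {s : ℕ × ℤ → Bool} {W : Finset (ℤ × ℤ)}

/-- 65's `Solid` as a condition on labels -/
lemma solid_iff (h2 : 2 ≤ n) (he : n % 2 = 0) : D.Solid s h2 he W ↔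
    ∀ t q, lt t ∉ EN ((D.cw s).win n h2 he) false → D.rg (cl n (D.ow n) t) = some q →
      (lt t ∈ W ↔ s q = true) :=
  ⟨fun h t q h1 h3 => h t q (fun k => h1 ((room_iff' t).2 k)) h3,
    fun h t q h1 h3 => h t q (fun k => h1 ((room_iff' t).1 k)) h3⟩

/-- **The arcs of the actual world** (R3b). -/
theorem r3b (h2 : 2 ≤ n) (he : n % 2 = 0) (hn : 8 ≤ n) (hV : D.Solid s h2 he W) {Y : Env}
    (pY : PlaneEnv Y W) (eY : Y.E = EN ((D.cw s).win n h2 he) false)
    (hfar : ¬ Sq (D.ow n) (D.Rr n + 5) (tt (plab Y.c0))) :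
    (∀ c, (lab c ∈ Y.E ∨ plab c ∈ Y.E) → Y.inc c = 0) ∨
    ∃ (l0 : ℤ) (sg : ℤ → ℤ), MatA (nP ((D.cw s).win n h2 he)) (colp ((D.cw s).win n h2 he)) l0 sg ∧
      ArcsAt ((D.cw s).win n h2 he) W Y.c0 l0 sg := by
  have hV' := (solid_iff h2 he).1 hV
  have ho : ((D.ow n).1 + (D.ow n).2) % 2 = 0 := by
    unfold RG.ow
    simp only [zero_add]
    obtain ⟨m, hm⟩ := Int.dvd_of_emod_eq_zero he
    rw [hm, mul_assoc]
    omega
  exact arcsAt_core h2 he hn (Pool.Agent.H68.G.plates_win h2 he hn hV')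
    (ring_V hn he ho (EN_in h2 he hn) hV') pY eY hfar

/-- **R3: the increments of the actual world.** -/
theorem inc_solid (h2 : 2 ≤ n) (he : n % 2 = 0) (hn : 8 ≤ n) (hV : D.Solid s h2 he W)
    {Z : OutB ((D.cw s).win n h2 he) → Prop}
    (hO : ∀ (l0 : ℤ) (sg : ℤ → ℤ),
      MatA (nP ((D.cw s).win n h2 he)) (colp ((D.cw s).win n h2 he)) l0 sg →
      ∃ O : OutB ((D.cw s).win n h2 he), Z O ∧ (∀ e ∈ O.Wo, (e.1 + e.2) % 2 = 1) ∧
        ArcsAt ((D.cw s).win n h2 he) (WN O false) O.c0 l0 sg)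
    {Y : Env} (pY : PlaneEnv Y W) (eY : Y.E = EN ((D.cw s).win n h2 he) false)
    (hfar : ¬ Sq (D.ow n) (D.Rr n + 5) (tt (plab Y.c0))) :
    (∀ c, (lab c ∈ Y.E ∨ plab c ∈ Y.E) → Y.inc c = 0) ∨
    ∃ O : OutB ((D.cw s).win n h2 he), Z O ∧ ∃ κ : ℤ,
      ∀ c, (lab c ∈ Y.E ∨ plab c ∈ Y.E) → Y.inc c = ph κ * (XN O false ∅).inc c :=
  inc_actual h2 he hn (Pool.Agent.H68.G.plates_win h2 he hn ((solid_iff h2 he).1 hV)) hV hO pY eY hfar

end Pool.Agent.H40.W.R3
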